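import Pool.Agent.Lib_helper26.SD.Page

/-!
# The exceptional modulus tends to infinity with the level
-/

set_option autoImplicit false

namespace Pool.Agent.SD

open Finset Pool.Agent.GA

theorem q1_large (c : ℝ) (hc : 0 < c) : ∀ q0 : ℕ, ∃ D0 : ℕ, ∀ D ≥ D0, ∀ (q₁ : ℕ)
    (χ₁ : DirichletCharacter ℂ q₁) (β₁ : ℝ), 1 ≤ q₁ → χ₁ ∈ Prm q₁ → χ₁ ^ 2 = 1 →
    LF χ₁ (β₁ : ℂ) = 0 → 1 - c / Real.log D < β₁ → q0 ≤ q₁ := by
  intro q0
  set D' : ℕ := max q0 2 with hD'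
  have hD2 : 2 ≤ D' := le_max_right _ _
  have hl : 0 < Real.log D' := Real.log_pos (by exact_mod_cast (by omega : 1 < D'))
  set S := z4_S (Real.log D') D' with hS
  have hfin : S.Finite := z4_finite _ _
  obtain ⟨b, hb1, hb⟩ : ∃ b : ℝ, b < 1 ∧ ∀ β ∈ S, β ≤ b := by
    by_cases hne : S.Nonempty
    · obtain ⟨b, hbS, hmax⟩ := Set.exists_max_image S id hfin hne
      refine ⟨b, ?_, fun β hβ => hmax β hβ⟩
      obtain ⟨-, q, hq, χ, hχ, -, h0⟩ := hbS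
      have : NeZero q := ⟨by have := (Finset.mem_Icc.1 hq).1; omega⟩
      have := z3_zero_re (z3_Prm hχ).2 h0
      rwa [Complex.ofReal_re] at this
    · exact ⟨0, by norm_num, fun β hβ => absurd ⟨β, hβ⟩ hne⟩
  have hx : 0 < min (1 - b) 1 := by
    refine lt_min (by linarith) one_pos
  obtain ⟨D0, hD0⟩ := exists_nat_ge (Real.exp (c / min (1 - b) 1))
  refine ⟨max D0 2, fun D hD q₁ χ₁ β₁ hq₁ hχ₁ hsq hz hβ => ?_⟩
  by_contra hlt
  push Not at hlt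
  have hD1 : D0 ≤ D := (le_max_left _ _).trans hD
  have hDR : Real.exp (c / min (1 - b) 1) ≤ D := hD0.trans (by exact_mod_cast hD1)
  have hDpos : (0 : ℝ) < D := (Real.exp_pos _).trans_le hDR
  have hlog : c / min (1 - b) 1 ≤ Real.log D := (Real.le_log_iff_exp_le hDpos).2 hDR
  have hlog0 : 0 < Real.log D := lt_of_lt_of_le (by positivity) hlog
  have h1 : c / Real.log D ≤ min (1 - b) 1 := by
    rw [div_le_iff₀ hlog0]
    rw [div_le_iff₀ hx] at hlog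
    linarith
  have hm1 := min_le_left (1 - b) (1 : ℝ)
  have hm2 := min_le_right (1 - b) (1 : ℝ)
  have h2 : β₁ ∈ S := by
    refine ⟨?_, q₁, Finset.mem_Icc.2 ⟨hq₁, ?_⟩, χ₁, hχ₁, hsq, hz⟩
    · rw [div_self hl.ne']
      linarith
    · have := le_max_left q0 2
      omega
  have h3 := hb β₁ h2
  linarith

/-- the conductor tends to infinity as the zero tends to `1` -/
theorem near_large (q0 : ℕ) : ∃ ε : ℝ, 0 < ε ∧ ∀ (q₁ : ℕ)
    (χ₁ : DirichletCharacter ℂ q₁) (β₁ : ℝ), 1 ≤ q₁ → χ₁ ∈ Prm q₁ → χ₁ ^ 2 = 1 →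
    LF χ₁ (β₁ : ℂ) = 0 → 1 - ε < β₁ → q0 ≤ q₁ := by
  obtain ⟨D0, hD0⟩ := q1_large 1 one_pos q0
  set D : ℕ := max D0 3 with hD
  have hl : 0 < Real.log D := Real.log_pos (by
    have : 3 ≤ D := le_max_right _ _
    exact_mod_cast (by omega : 1 < D))
  refine ⟨1 / Real.log D, by positivity, fun q₁ χ₁ β₁ h1 h2 h3 h4 h5 => ?_⟩
  exact hD0 D (le_max_left _ _) q₁ χ₁ β₁ h1 h2 h3 h4 h5

end Pool.Agent.SD
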