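import Pool.Agent.Lib_helper26.SD.Dich
import Pool.Agent.Lib_helper99.SZX.F4

/-!
# The dichotomy for all `Y`
-/

set_option autoImplicit false

namespace Pool.Agent.SD

open Finset Pool.Agent.FGP Pool.Agent.SZ Filter

/-- the main term `X log Q` in mean over `(Y, 2Y]`, for every `Y` -/
def BBs (k C : ℝ) : Prop := ∀ δ : ℝ, 0 < δ → δ ≤ k → ∀ᶠ X : ℝ in atTop, ∀ Y : ℝ,
  X ^ (1 - δ) ≤ Y → Y ≤ X / C →
    ∑ Q ∈ QR Y, |V X Q - X * Real.log Q| ≤ Real.exp (-(k / δ)) * (X * Real.log X) * (QR Y).card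

/-- the known lower bound is beaten for one `Y` -/
def CCs (c C δ : ℝ) : Prop := ∀ᶠ X : ℝ in atTop, ∃ Y : ℝ, X ^ (1 - δ) ≤ Y ∧ Y ≤ X / C ∧
  Real.exp (-(c / δ)) * (QR Y).card ≤ (((QR Y).filter (fun Q : ℕ =>
    X * (2 * Real.log Q - Real.log X) + Real.exp (-(c / δ)) * (X * Real.log X) ≤
      FGP.GV X Q)).card : ℝ)

/-- the variance is minimal in mean over `(Y, 2Y]`, for every `Y` -/
def DDs (c C δ : ℝ) : Prop := ∃ᶠ X : ℝ in atTop, ∀ Y : ℝ, X ^ (1 - δ) ≤ Y → Y ≤ X / C →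
  ∑ Q ∈ QR Y, |FGP.GV X Q - X * (2 * Real.log Q - Real.log X)| ≤
    Real.exp (-(c / δ)) * (X * Real.log X) * (QR Y).card

/-- the exceptional term when there are no Siegel zeros -/
theorem ns_W {a b δ X c₀ β : ℝ} (ha : 0 < a) (hδ : 0 < δ) (hX : 1 < X) (hc₀ : 0 < c₀) (hN : NS c₀)
    {q : ℕ} {χ : DirichletCharacter ℂ q} (hexc : IsExc a b δ X q χ β) {Q : ℕ} (hQ : 1 ≤ Q) :
    0 ≤ X ^ (2 * β - 1) * max 0 (Real.log (X / (q * Q))) ∧
    X ^ (2 * β - 1) * max 0 (Real.log (X / (q * Q))) ≤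
      Real.exp (-((2 * c₀ / a) / δ)) * (X * Real.log X) := by
  obtain ⟨h1, ⟨h2, h2', h2''⟩, h3, h4⟩ := hexc
  have hX0 : 0 < X := by linarith
  have hlX : 0 < Real.log X := Real.log_pos hX
  have hp : 0 ≤ X ^ (2 * β - 1) := Real.rpow_nonneg hX0.le _
  refine ⟨mul_nonneg hp (le_max_left _ _), ?_⟩
  have hq2 : 2 ≤ q := by
    rcases Nat.lt_or_ge q 2 with h | h
    · exfalso
      have hq1 : q = 1 := by omega
      subst hq1
      exact (GA.mem_Prm.1 h2).2 (Subsingleton.elim _ _)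
    · exact h
  have hq2R : (2 : ℝ) ≤ q := by exact_mod_cast hq2
  have hlq : 0 < Real.log q := Real.log_pos (by linarith)
  have hQR : (1 : ℝ) ≤ Q := by exact_mod_cast hQ
  have hb := hN q χ h2 h2' β h3
  have hlq2 : Real.log q ≤ a * δ * Real.log X := by
    have := Real.log_le_log (by linarith) h1
    rwa [Real.log_rpow hX0] at this
  have h5 : c₀ / (a * δ * Real.log X) ≤ c₀ / Real.log q :=
    div_le_div_of_nonneg_left hc₀.le hlq hlq2
  have h6 : X ^ (2 * β - 1) ≤ X * Real.exp (-((2 * c₀ / a) / δ)) := by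
    have h7 : X ^ (2 * β - 1) ≤ X ^ (1 - 2 * (c₀ / (a * δ * Real.log X))) :=
      Real.rpow_le_rpow_of_exponent_le hX.le (by linarith)
    refine h7.trans (le_of_eq ?_)
    rw [Real.rpow_sub hX0, Real.rpow_one, Real.rpow_def_of_pos hX0, div_eq_mul_inv,
      ← Real.exp_neg]
    congr 2
    field_simp
  have h8 : max 0 (Real.log (X / (q * Q))) ≤ Real.log X := by
    refine max_le hlX.le ?_
    apply Real.log_le_log (by positivity)
    apply div_le_self hX0.le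
    nlinarith
  calc X ^ (2 * β - 1) * max 0 (Real.log (X / (q * Q))) ≤
      (X * Real.exp (-((2 * c₀ / a) / δ))) * Real.log X :=
        mul_le_mul h6 h8 (le_max_left _ _) (by positivity)
    _ = _ := by ring

theorem ns_all {a b cA C : ℝ} (ha : 0 < a) (hcA : 0 < cA) (hC : 0 < C)
    (hA : ∀ c : ℝ, 0 < c → c ≤ cA →
    ∀ δ : ℝ, 0 < δ → δ ≤ cA → ∀ᶠ X : ℝ in atTop, ∀ Y : ℝ, X ^ (1 - δ) ≤ Y → Y ≤ X / C →
    ((∀ (q : ℕ) (χ : DirichletCharacter ℂ q) (β : ℝ), ¬ IsExc a b δ X q χ β) →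
      ∑ Q ∈ QR Y, |V X Q - X * Real.log Q| ≤
        C * Real.exp (-(c / δ)) * (X * Real.log X) * (QR Y).card) ∧
    (∀ (q : ℕ) (χ : DirichletCharacter ℂ q) (β : ℝ), IsExc a b δ X q χ β →
      ∑ Q ∈ QR Y, |V X Q - (X * Real.log Q - X ^ (2 * β - 1) * max 0 (Real.log (X / (q * Q))))| ≤
        C * Real.exp (-(c / δ)) * (X * Real.log X) * (QR Y).card))
    {c₀ : ℝ} (hc₀ : 0 < c₀) (hN : NS c₀) : ∃ k : ℝ, 0 < k ∧ BBs k C := by
  set m : ℝ := min cA (2 * c₀ / a) with hm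
  have hm0 : 0 < m := lt_min hcA (by positivity)
  have hmA : m ≤ cA := min_le_left _ _
  set k : ℝ := min (m / 2) (m / (2 * C)) with hk
  have hk0 : 0 < k := lt_min (by positivity) (by positivity)
  have hk1 : k ≤ m / 2 := min_le_left _ _
  have hk2 : k ≤ m / (2 * C) := min_le_right _ _
  refine ⟨k, hk0, fun δ hδ hδk => ?_⟩
  have hδA : δ ≤ cA := by linarith
  filter_upwards [hA m hm0 hmA δ hδ hδA, eventually_gt_atTop (1 : ℝ)] with X hX hX1
  intro Y hY1 hY2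
  obtain ⟨k1, k2⟩ := hX Y hY1 hY2
  have hlX : 0 < Real.log X := Real.log_pos hX1
  have h5 : 0 ≤ (X * Real.log X) * ((QR Y).card : ℝ) := by positivity
  have e1 : (C + 1) * Real.exp (-(m / δ)) ≤ Real.exp (-(k / δ)) := by
    have h6 : C + 1 ≤ Real.exp (m / 2 / δ) := by
      have h7 : C ≤ m / 2 / δ := by
        have h9 : δ ≤ m / (2 * C) := hδk.trans hk2
        rw [le_div_iff₀ (by positivity)] at h9
        rw [le_div_iff₀ hδ]
        linarith
      have h8 := Real.add_one_le_exp (m / 2 / δ)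
      linarith
    calc (C + 1) * Real.exp (-(m / δ)) ≤ Real.exp (m / 2 / δ) * Real.exp (-(m / δ)) :=
          mul_le_mul_of_nonneg_right h6 (Real.exp_pos _).le
      _ = Real.exp (-(m / 2 / δ)) := by
          rw [← Real.exp_add]
          congr 1
          field_simp
          ring
      _ ≤ _ := by
          apply Real.exp_le_exp.2
          apply neg_le_neg
          exact div_le_div_of_nonneg_right hk1 hδ.le
  have hE0 := (Real.exp_pos (-(m / δ))).le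
  by_cases hex : ∀ (q : ℕ) (χ : DirichletCharacter ℂ q) (β : ℝ), ¬ IsExc a b δ X q χ β
  · refine (k1 hex).trans ?_
    have e2 : C * Real.exp (-(m / δ)) ≤ Real.exp (-(k / δ)) := by
      refine le_trans ?_ e1
      nlinarith
    calc C * Real.exp (-(m / δ)) * (X * Real.log X) * (QR Y).card =
        C * Real.exp (-(m / δ)) * ((X * Real.log X) * (QR Y).card) := by ring
      _ ≤ Real.exp (-(k / δ)) * ((X * Real.log X) * (QR Y).card) :=
          mul_le_mul_of_nonneg_right e2 h5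
      _ = _ := by ring
  · push Not at hex
    obtain ⟨q, χ, β, hexc⟩ := hex
    have h6 := k2 q χ β hexc
    have hE : Real.exp (-((2 * c₀ / a) / δ)) ≤ Real.exp (-(m / δ)) := by
      apply Real.exp_le_exp.2
      apply neg_le_neg
      exact div_le_div_of_nonneg_right (min_le_right _ _) hδ.le
    calc ∑ Q ∈ QR Y, |V X Q - X * Real.log Q| ≤
        ∑ Q ∈ QR Y, (|V X Q - (X * Real.log Q -
          X ^ (2 * β - 1) * max 0 (Real.log (X / (q * Q))))| +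
            Real.exp (-(m / δ)) * (X * Real.log X)) := by
          refine sum_le_sum fun Q hQ => ?_
          have hQ1 : 1 ≤ Q := by
            have := (mem_filter.1 hQ).1
            exact (mem_Icc.1 this).1
          obtain ⟨w1, w2⟩ := ns_W ha hδ hX1 hc₀ hN hexc hQ1
          have w3 : Real.exp (-((2 * c₀ / a) / δ)) * (X * Real.log X) ≤
              Real.exp (-(m / δ)) * (X * Real.log X) :=
            mul_le_mul_of_nonneg_right hE (by positivity)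
          have := abs_sub_abs_le_abs_sub (V X Q - X * Real.log Q)
            (V X Q - (X * Real.log Q - X ^ (2 * β - 1) * max 0 (Real.log (X / (q * Q)))))
          have w4 : V X Q - X * Real.log Q -
            (V X Q - (X * Real.log Q - X ^ (2 * β - 1) * max 0 (Real.log (X / (q * Q))))) =
              -(X ^ (2 * β - 1) * max 0 (Real.log (X / (q * Q)))) := by ring
          rw [w4, abs_neg, abs_of_nonneg w1] at this
          linarith
      _ = ∑ Q ∈ QR Y, |V X Q - (X * Real.log Q -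
          X ^ (2 * β - 1) * max 0 (Real.log (X / (q * Q))))| +
            (QR Y).card * (Real.exp (-(m / δ)) * (X * Real.log X)) := by
          rw [sum_add_distrib, sum_const, nsmul_eq_mul]
      _ ≤ C * Real.exp (-(m / δ)) * (X * Real.log X) * (QR Y).card +
            (QR Y).card * (Real.exp (-(m / δ)) * (X * Real.log X)) := by linarith
      _ = ((C + 1) * Real.exp (-(m / δ))) * ((X * Real.log X) * (QR Y).card) := by ring
      _ ≤ Real.exp (-(k / δ)) * ((X * Real.log X) * (QR Y).card) :=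
          mul_le_mul_of_nonneg_right e1 h5
      _ = _ := by ring

/-- `X ^ (1 - δ) ≤ X / C` for large `X` -/
theorem pow_le_div {δ C : ℝ} (hδ : 0 < δ) (hC : 0 < C) :
    ∀ᶠ X : ℝ in atTop, X ^ (1 - δ) ≤ X / C := by
  filter_upwards [(tendsto_rpow_atTop hδ).eventually_ge_atTop C, eventually_gt_atTop (0 : ℝ)]
    with X h1 h2
  rw [Real.rpow_sub h2, Real.rpow_one]
  exact div_le_div_of_nonneg_left h2.le hC h1

theorem ccs_of_cc {c C δ : ℝ} (hδ : 0 < δ) (hC : 0 < C) (h : CC c δ) : CCs c C δ := by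
  obtain ⟨X₀, hX₀⟩ := h
  filter_upwards [pow_le_div hδ hC, eventually_ge_atTop X₀] with X h1 h2
  exact ⟨X ^ (1 - δ), le_rfl, h1, hX₀ X h2⟩

theorem bbe_of_bbs {k C : ℝ} (hC : 0 < C) (h : BBs k C) : BBe k := by
  intro δ hδ hδk
  obtain ⟨X₀, hX₀⟩ := eventually_atTop.1 ((h δ hδ hδk).and (pow_le_div hδ hC))
  exact ⟨X₀, fun X hX => (hX₀ X hX).1 _ le_rfl (hX₀ X hX).2⟩

/-- `DDs` contradicts `CCs` -/
theorem dds_ccs {c c' C δ : ℝ} (hc : 0 < c) (h2c : 2 * c < c') (hδ : 0 < δ) (hδ1 : δ ≤ 1 / 2)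
    (hD : DDs c' C δ) : ¬ CCs c C δ := by
  intro hCC
  obtain ⟨Y₀, hY₀, hcnt⟩ := cnt
  have hev := ((hD.and_eventually hCC).and_eventually ((eventually_gt_atTop (1 : ℝ)).and
    ((tendsto_rpow_atTop (show (0 : ℝ) < 1 / 2 by norm_num)).eventually_ge_atTop Y₀))).exists
  obtain ⟨X, ⟨h1, Y, hY1, hY2, h2⟩, h3, h4⟩ := hev
  have h5 := h1 Y hY1 hY2
  have hX0 : 0 < X := by linarith
  have hlX : 0 < Real.log X := Real.log_pos h3
  have hYY : Y₀ ≤ Y := by
    refine h4.trans (le_trans ?_ hY1)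
    exact Real.rpow_le_rpow_of_exponent_le h3.le (by linarith)
  have hcard : 0 < ((QR Y).card : ℝ) := by
    obtain ⟨k1, -⟩ := hcnt Y hYY
    have hlY : 0 < Real.log Y := Real.log_pos (by linarith)
    have : 0 < Y / Real.log Y := div_pos (by linarith) hlY
    linarith
  set ε : ℝ := Real.exp (-(c / δ)) with hε
  have hε0 : 0 < ε := Real.exp_pos _
  set F := (QR Y).filter (fun Q : ℕ => X * (2 * Real.log Q - Real.log X) +
    ε * (X * Real.log X) ≤ FGP.GV X Q) with hF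
  have h6 : (F.card : ℝ) * (ε * (X * Real.log X)) ≤
      ∑ Q ∈ QR Y, |FGP.GV X Q - X * (2 * Real.log Q - Real.log X)| := by
    calc (F.card : ℝ) * (ε * (X * Real.log X)) = ∑ Q ∈ F, ε * (X * Real.log X) := by
          rw [sum_const, nsmul_eq_mul]
      _ ≤ ∑ Q ∈ F, |FGP.GV X Q - X * (2 * Real.log Q - Real.log X)| := by
          refine sum_le_sum fun Q hQ => ?_
          have := (mem_filter.1 hQ).2
          exact (by linarith : ε * (X * Real.log X) ≤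
            FGP.GV X Q - X * (2 * Real.log Q - Real.log X)).trans (le_abs_self _)
      _ ≤ _ := sum_le_sum_of_subset_of_nonneg (filter_subset _ _) fun _ _ _ => abs_nonneg _
  have h7 : ε * ((QR Y).card : ℝ) * (ε * (X * Real.log X)) ≤
      Real.exp (-(c' / δ)) * (X * Real.log X) * (QR Y).card := by
    refine le_trans ?_ (h6.trans h5)
    exact mul_le_mul_of_nonneg_right h2 (by positivity)
  have h8 : ε * ε ≤ Real.exp (-(c' / δ)) := by
    have h9 : 0 < (X * Real.log X) * ((QR Y).card : ℝ) := by positivity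
    nlinarith
  rw [hε, ← Real.exp_add, Real.exp_le_exp] at h8
  have h9 : c' / δ ≤ 2 * c / δ := by
    have : 2 * c / δ = c / δ + c / δ := by ring
    linarith
  rw [div_le_div_iff_of_pos_right hδ] at h9
  linarith

/-- the dichotomy, for every `Y` -/
theorem dichs (h3 : F3) (h4 : F4s) {a b cA C₁ : ℝ} (ha : 0 < a) (hcA : 0 < cA) (hC₁ : 0 < C₁)
    (hA : ∀ c : ℝ, 0 < c → c ≤ cA →
    ∀ δ : ℝ, 0 < δ → δ ≤ cA → ∀ᶠ X : ℝ in atTop, ∀ Y : ℝ, X ^ (1 - δ) ≤ Y → Y ≤ X / C₁ →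
    ((∀ (q : ℕ) (χ : DirichletCharacter ℂ q) (β : ℝ), ¬ IsExc a b δ X q χ β) →
      ∑ Q ∈ QR Y, |V X Q - X * Real.log Q| ≤
        C₁ * Real.exp (-(c / δ)) * (X * Real.log X) * (QR Y).card) ∧
    (∀ (q : ℕ) (χ : DirichletCharacter ℂ q) (β : ℝ), IsExc a b δ X q χ β →
      ∑ Q ∈ QR Y, |V X Q - (X * Real.log Q - X ^ (2 * β - 1) * max 0 (Real.log (X / (q * Q))))| ≤
        C₁ * Real.exp (-(c / δ)) * (X * Real.log X) * (QR Y).card)) :
    ∃ c C δ₀ : ℝ, 0 < c ∧ c ≤ cA ∧ 0 < C ∧ C₁ ≤ C ∧ 0 < δ₀ ∧ δ₀ ≤ cA ∧ δ₀ < 1 ∧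
    (∀ δ : ℝ, 0 < δ → δ ≤ δ₀ → Real.exp (-(c / δ)) ≤ δ / 100) ∧
    ((∃ c₀ : ℝ, 0 < c₀ ∧ NS c₀) ↔ ∃ k : ℝ, 0 < k ∧ BBs k C) ∧
    ((∃ c₀ : ℝ, 0 < c₀ ∧ NS c₀) ↔ ∃ δ : ℝ, 0 < δ ∧ δ ≤ δ₀ ∧ CCs c C δ) ∧
    ((¬ ∃ c₀ : ℝ, 0 < c₀ ∧ NS c₀) → ∀ δ : ℝ, 0 < δ → δ ≤ δ₀ → DDs c C δ) := by
  obtain ⟨c', δ', C₂, hc', hδ', hδ1, hC₂, hD⟩ := h4
  set C : ℝ := max C₁ C₂ with hC
  have hC0 : 0 < C := lt_max_of_lt_left hC₁
  have hCC₁ : C₁ ≤ C := le_max_left _ _
  have hCC₂ : C₂ ≤ C := le_max_right _ _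
  set c : ℝ := min (c' / 3) cA with hc
  have hc0 : 0 < c := lt_min (by positivity) hcA
  have hc3 : c ≤ c' / 3 := min_le_left _ _
  have h2c : 2 * c < c' := by linarith
  set δ₀ : ℝ := min (min δ' cA) (min (1 / 2) (c ^ 2 / 200)) with hδ₀
  have hδ₀0 : 0 < δ₀ := lt_min (lt_min hδ' hcA) (lt_min (by norm_num) (by positivity))
  have hδ₀1 : δ₀ ≤ δ' := (min_le_left _ _).trans (min_le_left _ _)
  have hδ₀2 : δ₀ ≤ cA := (min_le_left _ _).trans (min_le_right _ _)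
  have hδ₀3 : δ₀ ≤ 1 / 2 := (min_le_right _ _).trans (min_le_left _ _)
  have hδ₀4 : δ₀ ≤ c ^ 2 / 200 := (min_le_right _ _).trans (min_le_right _ _)
  have hDs : (¬ ∃ c₀ : ℝ, 0 < c₀ ∧ NS c₀) → ∀ δ : ℝ, 0 < δ → δ ≤ δ₀ → DDs c' C δ := by
    intro hn δ hδ hδδ
    unfold DDs
    rw [frequently_atTop]
    intro X₀
    obtain ⟨X, hX, hXY⟩ := hD hn δ hδ (hδδ.trans hδ₀1) (max X₀ 1)
    refine ⟨X, (le_max_left _ _).trans hX, fun Y hY1 hY2 => hXY Y hY1 (hY2.trans ?_)⟩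
    have hX1 : 1 ≤ X := (le_max_right _ _).trans hX
    exact div_le_div_of_nonneg_left (by linarith) hC₂ hCC₂
  have key : ∀ δ : ℝ, 0 < δ → δ ≤ δ₀ → CCs c C δ → ∃ c₀ : ℝ, 0 < c₀ ∧ NS c₀ := by
    intro δ hδ hδδ hC
    by_contra hn
    exact dds_ccs hc0 h2c hδ (by linarith) (hDs hn δ hδ hδδ) hC
  have key2 : ∀ k : ℝ, 0 < k → BBs k C → ∃ δ : ℝ, 0 < δ ∧ δ ≤ δ₀ ∧ CCs c C δ := by
    intro k hk hB
    obtain ⟨k', hk', hB'⟩ := fin_bbe hk (bbe_of_bbs hC0 hB)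
    obtain ⟨δ₁, hδ₁, hC⟩ := h3 c k' hc0 hk' hB'
    have hm : 0 < min δ₀ δ₁ := lt_min hδ₀0 hδ₁
    exact ⟨min δ₀ δ₁, hm, min_le_left _ _, ccs_of_cc hm hC0 (hC _ hm (min_le_right _ _))⟩
  have key3 : (∃ c₀ : ℝ, 0 < c₀ ∧ NS c₀) → ∃ k : ℝ, 0 < k ∧ BBs k C := by
    rintro ⟨c₀, hc₀, hN⟩
    obtain ⟨k, hk, hB⟩ := ns_all ha hcA hC₁ hA hc₀ hN
    refine ⟨k, hk, fun δ hδ hδk => ?_⟩
    filter_upwards [hB δ hδ hδk, eventually_gt_atTop (0 : ℝ)] with X hX hX0
    intro Y hY1 hY2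
    exact hX Y hY1 (hY2.trans (div_le_div_of_nonneg_left hX0.le hC₁ hCC₁))
  refine ⟨c, C, δ₀, hc0, min_le_right _ _, hC0, hCC₁, hδ₀0, hδ₀2, by linarith, ?_, ⟨key3, ?_⟩,
    ⟨?_, ?_⟩, ?_⟩
  · intro δ hδ hδδ
    have h6 : δ ≤ c ^ 2 / 200 := hδδ.trans hδ₀4
    have hx : 0 < c / δ := by positivity
    have h7 : (c / δ) ^ 2 / 2 ≤ Real.exp (c / δ) := by
      have := Real.quadratic_le_exp_of_nonneg hx.le
      linarith
    have h8 : 100 / δ ≤ Real.exp (c / δ) := by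
      refine le_trans ?_ h7
      rw [div_pow, div_div, div_le_div_iff₀ hδ (by positivity)]
      nlinarith
    rw [Real.exp_neg, inv_eq_one_div, div_le_div_iff₀ (Real.exp_pos _) (by norm_num)]
    rw [div_le_iff₀ hδ] at h8
    linarith
  · rintro ⟨k, hk, hB⟩
    obtain ⟨δ, hδ, hδδ, hC⟩ := key2 k hk hB
    exact key δ hδ hδδ hC
  · intro h
    obtain ⟨k, hk, hB⟩ := key3 h
    exact key2 k hk hB
  · rintro ⟨δ, hδ, hδδ, hC⟩
    exact key δ hδ hδδ hC
  · intro hn δ hδ hδδ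
    refine (hDs hn δ hδ hδδ).mp ?_
    filter_upwards [eventually_gt_atTop (1 : ℝ)] with X hX hXY
    intro Y hY1 hY2
    refine (hXY Y hY1 hY2).trans ?_
    have hlX : 0 < Real.log X := Real.log_pos hX
    have h5 : Real.exp (-(c' / δ)) ≤ Real.exp (-(c / δ)) := by
      apply Real.exp_le_exp.2
      apply neg_le_neg
      exact div_le_div_of_nonneg_right (by linarith) hδ.le
    calc Real.exp (-(c' / δ)) * (X * Real.log X) * (QR Y).card =
        Real.exp (-(c' / δ)) * ((X * Real.log X) * (QR Y).card) := by ring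
      _ ≤ Real.exp (-(c / δ)) * ((X * Real.log X) * (QR Y).card) :=
          mul_le_mul_of_nonneg_right h5 (by positivity)
      _ = _ := by ring

end Pool.Agent.SD
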