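import Pool.Agent.Lib_helper3.FGP.P15
import Pool.Agent.Lib_helper3.FGP.Wanted

/-!
# The number of primes in `(Y, 2Y]`
-/

set_option autoImplicit false

namespace Pool.Agent.SD

open Finset Pool.Agent.FGP Pool.Agent.Var35 Pool.Agent.Var73 Pool.Agent.PV

theorem cnt_base : ∃ Y₀ : ℝ, 100 ≤ Y₀ ∧ ∀ Y : ℝ, Y₀ ≤ Y →
    (9 / 10) * (Y * Real.log Y) ≤ ∑ p ∈ QR Y, Real.log p ^ 2 ∧
      ∑ p ∈ QR Y, Real.log p ^ 2 ≤ (5 / 2) * (Y * Real.log Y) := by
  obtain ⟨N0, hN0⟩ := W15_pr (1 / 40) (by norm_num)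
  refine ⟨max (Real.exp 100) (N0 + 1), ?_, fun Y hY => ?_⟩
  · refine le_trans ?_ (le_max_left _ _)
    have := Real.add_one_le_exp (100 : ℝ)
    linarith
  have hY1 : Real.exp 100 ≤ Y := (le_max_left _ _).trans hY
  have hY2 : (N0 : ℝ) + 1 ≤ Y := (le_max_right _ _).trans hY
  have hexp := Real.add_one_le_exp (100 : ℝ)
  have hY100 : 101 ≤ Y := by linarith
  have hY0 : 0 < Y := by linarith
  have hlY : 100 ≤ Real.log Y := (Real.le_log_iff_exp_le hY0).2 hY1
  set m : ℕ := ⌊Y⌋₊ with hm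
  set M : ℕ := ⌊2 * Y⌋₊ with hM
  have hm1 : (m : ℝ) ≤ Y := Nat.floor_le hY0.le
  have hm2 : Y < m + 1 := Nat.lt_floor_add_one Y
  have hM1 : (M : ℝ) ≤ 2 * Y := Nat.floor_le (by linarith)
  have hM2 : 2 * Y < M + 1 := Nat.lt_floor_add_one _
  have hmM : 2 * m ≤ M := by
    apply Nat.le_floor
    push_cast
    linarith
  have hmN : N0 ≤ m := by
    apply Nat.le_floor
    linarith
  have hMN : N0 ≤ M := by omega
  have a1 := hN0 m hmN
  have a2 := hN0 M hMN
  rw [abs_le] at a1 a2
  have hm0 : (100 : ℝ) ≤ m := by linarith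
  have hM0 : (200 : ℝ) ≤ M := by linarith
  have hlm : 0 < Real.log m := Real.log_pos (by linarith)
  have hmMR : 2 * (m : ℝ) ≤ M := by exact_mod_cast hmM
  have hl2 : Real.log 2 < 0.6931471808 := Real.log_two_lt_d9
  have hl2' : 0.6931471803 < Real.log 2 := Real.log_two_gt_d9
  have hlM : Real.log m + Real.log 2 ≤ Real.log M := by
    rw [← Real.log_mul (by linarith) (by norm_num)]
    apply Real.log_le_log (by linarith)
    linarith
  have hlM2 : Real.log M ≤ Real.log Y + Real.log 2 := by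
    rw [← Real.log_mul (by linarith) (by norm_num)]
    apply Real.log_le_log (by linarith)
    linarith
  -- lower bound
  have h1 : A2 M - A2 m ≤ ∑ p ∈ QR Y, Real.log p ^ 2 := by
    have e1 : A2 M = ∑ n ∈ Icc 1 m, aS M n ^ 2 + ∑ n ∈ Ioc m M, aS M n ^ 2 := by
      unfold A2
      rw [← Finset.sum_union]
      · congr 1
        ext n
        simp only [Finset.mem_union, Finset.mem_Icc, Finset.mem_Ioc]
        omega
      · rw [Finset.disjoint_left]
        intro n hn hn'
        rw [Finset.mem_Icc] at hn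
        rw [Finset.mem_Ioc] at hn'
        omega
    have e2 : ∑ n ∈ Icc 1 m, aS M n ^ 2 ≤ A2 m := by
      unfold A2
      refine Finset.sum_le_sum fun n hn => ?_
      unfold aS
      by_cases h : n.Prime ∧ Nat.sqrt M < n
      · have h' : n.Prime ∧ Nat.sqrt m < n :=
          ⟨h.1, lt_of_le_of_lt (Nat.sqrt_le_sqrt (by omega)) h.2⟩
        rw [if_pos h, if_pos h']
      · rw [if_neg h]
        exact le_trans (le_of_eq (by norm_num)) (sq_nonneg _)
    have e3 : ∑ n ∈ Ioc m M, aS M n ^ 2 ≤ ∑ p ∈ QR Y, Real.log p ^ 2 := by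
      have : ∑ n ∈ Ioc m M, aS M n ^ 2 ≤ ∑ n ∈ (Ioc m M).filter Nat.Prime, Real.log n ^ 2 := by
        rw [Finset.sum_filter]
        refine Finset.sum_le_sum fun n hn => ?_
        unfold aS
        by_cases h : n.Prime ∧ Nat.sqrt M < n
        · rw [if_pos h, if_pos h.1]
        · rw [if_neg h]
          split_ifs
          · exact le_trans (le_of_eq (by norm_num)) (sq_nonneg _)
          · norm_num
      refine this.trans (Finset.sum_le_sum_of_subset_of_nonneg ?_ fun _ _ _ => by positivity)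
      intro n hn
      rw [Finset.mem_filter, Finset.mem_Ioc] at hn
      unfold QR
      rw [Finset.mem_filter, Finset.mem_Icc]
      refine ⟨⟨by omega, hn.1.2⟩, hn.2, ?_⟩
      exact (Nat.floor_lt hY0.le).1 hn.1.1
    linarith
  -- upper bound
  have h2 : ∑ p ∈ QR Y, Real.log p ^ 2 ≤ A2 M := by
    unfold A2
    have hsub : QR Y ⊆ Icc 1 M := Finset.filter_subset _ _
    calc ∑ p ∈ QR Y, Real.log p ^ 2 ≤ ∑ p ∈ QR Y, aS M p ^ 2 := by
          refine Finset.sum_le_sum fun p hp => ?_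
          unfold QR at hp
          rw [Finset.mem_filter] at hp
          have h3 : Nat.sqrt M < p := by
            rw [Nat.sqrt_lt]
            have h4 : (M : ℝ) < (p : ℝ) * p := by nlinarith [hp.2.2]
            exact_mod_cast h4
          unfold aS
          rw [if_pos ⟨hp.2.1, h3⟩]
      _ ≤ _ := Finset.sum_le_sum_of_subset_of_nonneg hsub fun _ _ _ => by positivity
  constructor
  · refine le_trans ?_ h1
    have hlm2 : Real.log Y - 1 / 50 ≤ Real.log m := by
      have h5 : Real.log Y ≤ Real.log ((101 / 100) * m) := by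
        apply Real.log_le_log hY0
        linarith
      rw [Real.log_mul (by norm_num) (by linarith)] at h5
      have h6 : Real.log (101 / 100) ≤ 101 / 100 - 1 := Real.log_le_sub_one_of_pos (by norm_num)
      linarith
    have h7 : (M : ℝ) * (Real.log m + Real.log 2) ≤ M * Real.log M :=
      mul_le_mul_of_nonneg_left hlM (by linarith)
    have h8 : (2 * (m : ℝ)) * (Real.log m + Real.log 2 - 1 - 1 / 40) ≤
        M * (Real.log m + Real.log 2 - 1 - 1 / 40) :=
      mul_le_mul_of_nonneg_right hmMR (by linarith)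
    have h9 : (m : ℝ) * Real.log m ≤ A2 M - A2 m := by
      nlinarith
    have h10 : (Y - 1) * (Real.log Y - 1 / 50) ≤ m * Real.log m := by
      apply mul_le_mul (by linarith) hlm2 (by linarith) (by linarith)
    nlinarith
  · refine h2.trans ?_
    have h7 : A2 M ≤ M * Real.log M := by nlinarith
    have h8 : (M : ℝ) * Real.log M ≤ (2 * Y) * (Real.log Y + Real.log 2) :=
      mul_le_mul hM1 hlM2 (by linarith) (by linarith)
    nlinarith

theorem cnt : ∃ Y₀ : ℝ, 100 ≤ Y₀ ∧ ∀ Y : ℝ, Y₀ ≤ Y →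
    (1 / 2) * (Y / Real.log Y) ≤ ((QR Y).card : ℝ) ∧ ((QR Y).card : ℝ) ≤ 3 * (Y / Real.log Y) := by
  obtain ⟨Y₀, hY₀, h⟩ := cnt_base
  refine ⟨max Y₀ (Real.exp 100), hY₀.trans (le_max_left _ _), fun Y hY => ?_⟩
  obtain ⟨h1, h2⟩ := h Y ((le_max_left _ _).trans hY)
  have hY1 : Real.exp 100 ≤ Y := (le_max_right _ _).trans hY
  have hY2 : Y₀ ≤ Y := (le_max_left _ _).trans hY
  have hY0 : 0 < Y := by linarith
  have hlY : 100 ≤ Real.log Y := (Real.le_log_iff_exp_le hY0).2 hY1
  have hl2 : Real.log 2 < 0.6931471808 := Real.log_two_lt_d9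
  have hmem : ∀ p ∈ QR Y, Real.log Y ≤ Real.log p ∧ Real.log p ≤ Real.log Y + Real.log 2 := by
    intro p hp
    unfold QR at hp
    rw [Finset.mem_filter, Finset.mem_Icc] at hp
    have h3 : (p : ℝ) ≤ 2 * Y := (Nat.le_floor_iff (by linarith)).1 hp.1.2
    constructor
    · exact Real.log_le_log hY0 hp.2.2.le
    · rw [← Real.log_mul (by linarith) (by norm_num)]
      apply Real.log_le_log (by linarith [hp.2.2])
      linarith
  have u1 : ∑ p ∈ QR Y, Real.log p ^ 2 ≤ ((QR Y).card : ℝ) * (Real.log Y + Real.log 2) ^ 2 := by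
    rw [← nsmul_eq_mul, ← Finset.sum_const]
    refine Finset.sum_le_sum fun p hp => ?_
    exact pow_le_pow_left₀ (by linarith [(hmem p hp).1]) (hmem p hp).2 2
  have u2 : ((QR Y).card : ℝ) * Real.log Y ^ 2 ≤ ∑ p ∈ QR Y, Real.log p ^ 2 := by
    rw [← nsmul_eq_mul, ← Finset.sum_const]
    refine Finset.sum_le_sum fun p hp => ?_
    exact pow_le_pow_left₀ (by linarith) (hmem p hp).1 2
  have hL0 : 0 < Real.log Y := by linarith
  constructor
  · rw [mul_div_assoc', div_le_iff₀ hL0]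
    have hl0 : 0 < Real.log 2 := Real.log_pos (by norm_num)
    have h5 : (Real.log Y + Real.log 2) ^ 2 ≤ (11 / 10) * Real.log Y ^ 2 := by
      have h51 : Real.log Y + Real.log 2 ≤ (101 / 100) * Real.log Y := by linarith
      calc (Real.log Y + Real.log 2) ^ 2 ≤ ((101 / 100) * Real.log Y) ^ 2 :=
            pow_le_pow_left₀ (by linarith) h51 2
        _ ≤ _ := by nlinarith [sq_nonneg (Real.log Y)]
    have h6 : (9 / 10) * (Y * Real.log Y) ≤ ((QR Y).card : ℝ) * ((11 / 10) * Real.log Y ^ 2) :=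
      h1.trans (u1.trans (mul_le_mul_of_nonneg_left h5 (Nat.cast_nonneg _)))
    have h7 : (9 / 10) * Y ≤ ((QR Y).card : ℝ) * ((11 / 10) * Real.log Y) := by
      have : ((9 / 10) * Y) * Real.log Y ≤ (((QR Y).card : ℝ) * ((11 / 10) * Real.log Y)) * Real.log Y := by
        linarith
      exact le_of_mul_le_mul_right this hL0
    linarith
  · rw [mul_div_assoc', le_div_iff₀ hL0]
    have h6 : ((QR Y).card : ℝ) * Real.log Y ^ 2 ≤ (5 / 2) * (Y * Real.log Y) := u2.trans h2
    have h7 : ((QR Y).card : ℝ) * Real.log Y ≤ (5 / 2) * Y := by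
      have : (((QR Y).card : ℝ) * Real.log Y) * Real.log Y ≤ ((5 / 2) * Y) * Real.log Y := by
        linarith
      exact le_of_mul_le_mul_right this hL0
    linarith

end Pool.Agent.SD
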