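import Pool.Agent.Lib_helper59.LHM.ZA
import Pool.Agent.Lib_helper59.LHM.ZB
import Pool.Agent.Lib_helper98.GAF.Z4

/-!
# The theorem of Landau and Page: at most one bad zero, with multiplicity
-/

set_option autoImplicit false
set_option linter.unusedSectionVars false

namespace Pool.Agent.SD

open Finset Complex Metric Filter Pool.Agent.GA
open scoped ArithmeticFunction.vonMangoldt ComplexConjugate Classical Topology

/-- `nontrivial_upper` with multiplicities -/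
theorem upper_m : ∃ C : ℝ, 1 ≤ C ∧ ∀ (q : ℕ) [NeZero q] (χ : DirichletCharacter ℂ q),
    χ ≠ 1 → ∀ t σ ℒ : ℝ, lt q t ≤ ℒ → Real.exp (-ℒ) ≤ σ → σ ≤ 1 / 16 →
    ∀ T : Finset ℂ, (∀ ρ ∈ T, LF χ ρ = 0 ∧ ‖1 + σ + t * I - ρ‖ ≤ 1 / 4) →
      (Gj χ 0 (1 + σ + t * I)).re ≤
        C * ℒ - ∑ ρ ∈ T, mlt (LF χ) ρ * (1 / (1 + σ + t * I - ρ)).re := by
  obtain ⟨C, hC, h⟩ := local_expansion
  refine ⟨C, hC, fun q _ χ hχ t σ ℒ hL hσ hσ1 T hT => ?_⟩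
  have hσ0 : 0 < σ := lt_of_lt_of_le (Real.exp_pos _) hσ
  have h1 := h q χ hχ t σ ℒ hL hσ hσ1 0
  simp only [Nat.factorial_zero, Nat.cast_one, div_one, zero_add, pow_one, pow_zero,
    mul_one] at h1
  have hd := LF_diff hχ
  have h0 : LF χ 2 ≠ 0 := LF_ne_zero hχ (by norm_num)
  set c : ℂ := 1 + σ + t * I with hc
  have hcre : c.re = 1 + σ := by simp [hc]
  have h2 := (Complex.abs_re_le_norm _).trans h1
  rw [Complex.add_re, abs_le] at h2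
  have h3 : ∑ ρ ∈ T, mlt (LF χ) ρ * (1 / (c - ρ)).re ≤
      (∑ ρ ∈ zb (LF χ) c (1 / 4), (mlt (LF χ) ρ : ℂ) / (c - ρ)).re := by
    rw [Complex.re_sum]
    have hsub : T ⊆ zb (LF χ) c (1 / 4) := by
      intro ρ hρ
      rw [mem_zb hd h0]
      refine ⟨(hT ρ hρ).1, ?_⟩
      rw [mem_closedBall, dist_comm, dist_eq_norm]
      exact (hT ρ hρ).2
    have hre : ∀ ρ ∈ zb (LF χ) c (1 / 4), 0 ≤ (1 / (c - ρ)).re ∧
        ((mlt (LF χ) ρ : ℂ) / (c - ρ)).re = mlt (LF χ) ρ * (1 / (c - ρ)).re := by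
      intro ρ hρ
      have h4 := ((mem_zb hd h0 c (1 / 4) ρ).1 hρ).1
      have h5 := z3_zero_re hχ h4
      refine ⟨z2_re_inv_nonneg (by linarith), ?_⟩
      have h6 : (mlt (LF χ) ρ : ℂ) / (c - ρ) = (mlt (LF χ) ρ : ℂ) * (1 / (c - ρ)) := by ring
      rw [h6, Complex.re_ofReal_mul]
    refine le_trans (Finset.sum_le_sum fun ρ hρ => ?_)
      (Finset.sum_le_sum_of_subset_of_nonneg hsub fun ρ hρ _ => ?_)
    · rw [(hre ρ (hsub hρ)).2]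
    · have h4 := hre ρ hρ
      rw [h4.2]
      exact mul_nonneg (by unfold mlt; positivity) h4.1
  linarith [h2.2]

/-- the zeros of one real character -/
theorem one_char : ∃ c : ℝ, 0 < c ∧ ∀ D : ℕ, 2 ≤ D → ∀ q ∈ Icc 1 D, ∀ χ ∈ Prm q, χ ^ 2 = 1 →
    ∀ T : Finset ℂ, (∀ ρ ∈ T, LF χ ρ = 0 ∧ ρ.im = 0 ∧ 1 - c / Real.log D < ρ.re) →
      ∑ ρ ∈ T, mlt (LF χ) ρ < 2 := by
  obtain ⟨C₁, hC₁, hP⟩ := principal_upper
  obtain ⟨C₂, hC₂, hN⟩ := upper_m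
  set C : ℝ := C₁ + C₂ with hC
  set a : ℝ := 1 / (64 * C) with ha
  have hC0 : 2 ≤ C := by linarith
  have ha0 : 0 < a := by positivity
  have haC : a * C = 1 / 64 := by rw [ha]; field_simp
  have ha1 : a ≤ 1 / 64 := by nlinarith
  obtain ⟨A, hA, hpar⟩ := z3_par ha0
  refine ⟨min ((1 / 2) * a / A) (1 / 32), by positivity, fun D hD q hq χ hχ hχ2 T hT => ?_⟩
  obtain ⟨hℒ1, hexp, hσa, hlt, -⟩ := hpar D hD
  set ℒ : ℝ := A * Real.log D with hℒ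
  set σ : ℝ := a / ℒ with hσ
  have hσ0 : 0 < σ := by positivity
  have hσ1 : σ ≤ 1 / 16 := by linarith
  have hq1 : 1 ≤ q := (Finset.mem_Icc.1 hq).1
  have : NeZero q := ⟨by omega⟩
  obtain ⟨-, hχ1⟩ := z3_Prm hχ
  have hDR : (2 : ℝ) ≤ D := by exact_mod_cast hD
  have hlD0 : 0 < Real.log D := Real.log_pos (by linarith)
  have hl2 : (1 : ℝ) / 2 ≤ Real.log D := by
    have h1 := Real.log_two_gt_d9
    have h2 : Real.log 2 ≤ Real.log D := Real.log_le_log (by norm_num) hDR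
    linarith
  have hx : ∀ ρ ∈ T, 1 - ρ.re < σ / 2 ∧ 1 - ρ.re < 1 / 16 ∧ ρ.re < 1 := by
    intro ρ hρ
    obtain ⟨h0, him, hre⟩ := hT ρ hρ
    refine ⟨?_, ?_, z3_zero_re hχ1 h0⟩
    · have h1 : min ((1 / 2) * a / A) (1 / 32) / Real.log D ≤ σ / 2 := by
        have h2 : σ / 2 = ((1 / 2) * a / A) / Real.log D := by
          rw [hσ, hℒ]; field_simp
        rw [h2]
        exact div_le_div_of_nonneg_right (min_le_left _ _) hlD0.le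
      linarith
    · have h1 : min ((1 / 2) * a / A) (1 / 32) / Real.log D ≤ 1 / 16 := by
        rw [div_le_iff₀ hlD0]
        have := min_le_right ((1 / 2) * a / A) (1 / 32)
        linarith
      linarith
  have h0 := pos_two hχ2 hσ0
  have h1 := hP q 0 σ ℒ (hlt q hq 0 (by rw [abs_zero]; positivity)) hℒ1 hexp hσ1
  have ee : ∀ ρ ∈ T, (1 + σ + ((0 : ℝ) : ℂ) * I - ρ : ℂ) = ((σ + (1 - ρ.re) : ℝ) : ℂ) := by
    intro ρ hρ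
    apply Complex.ext
    · simp; ring
    · simp [(hT ρ hρ).2.1]
  have h2 := hN q χ hχ1 0 σ ℒ (hlt q hq 0 (by rw [abs_zero]; positivity)) hexp hσ1 T (by
    intro ρ hρ
    obtain ⟨k1, k2, k3⟩ := hx ρ hρ
    refine ⟨(hT ρ hρ).1, ?_⟩
    rw [ee ρ hρ, Complex.norm_real, Real.norm_of_nonneg (by linarith)]
    linarith)
  have h3 : (∑ ρ ∈ T, mlt (LF χ) ρ) * (1 / (3 / 2 * σ)) ≤
      ∑ ρ ∈ T, mlt (LF χ) ρ * (1 / (1 + σ + ((0 : ℝ) : ℂ) * I - ρ)).re := by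
    rw [Finset.sum_mul]
    refine Finset.sum_le_sum fun ρ hρ => ?_
    obtain ⟨k1, k2, k3⟩ := hx ρ hρ
    rw [ee ρ hρ, z3_inv hσ0 (by linarith)]
    refine mul_le_mul_of_nonneg_left ?_ (by unfold mlt; positivity)
    exact one_div_le_one_div_of_le (by linarith) (by linarith)
  rw [z1_c0] at h1 h2
  have e2 : σ / (σ ^ 2 + 0 ^ 2) = 1 / σ := by field_simp; ring
  rw [e2] at h1
  rw [z1_c0] at h3
  have hc1 : C₁ * ℒ ≤ C * ℒ := mul_le_mul_of_nonneg_right (by linarith) (by linarith)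
  have hc2 : C₂ * ℒ ≤ C * ℒ := mul_le_mul_of_nonneg_right (by linarith) (by linarith)
  have hCL : C * ℒ = 1 / (64 * σ) := by
    have : C * ℒ * σ = 1 / 64 := by
      rw [hσ, ← haC]; field_simp
    field_simp
    linarith
  have h5 : (∑ ρ ∈ T, mlt (LF χ) ρ) * (1 / (3 / 2 * σ)) ≤ 1 / σ + 2 * (1 / (64 * σ)) := by
    rw [← hCL]
    linarith
  have h6 : 1 / σ + 2 * (1 / (64 * σ)) = (1 + 2 / 64) / σ := by field_simp
  rw [h6, mul_one_div, div_le_div_iff₀ (by positivity) hσ0] at h5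
  have h7 : (∑ ρ ∈ T, mlt (LF χ) ρ) ≤ (1 + 2 / 64) * (3 / 2) := by
    have : (∑ ρ ∈ T, mlt (LF χ) ρ) * σ ≤ (1 + 2 / 64) * (3 / 2) * σ := by linarith
    exact le_of_mul_le_mul_right this hσ0
  linarith

/-- two real characters; `landau` for arbitrary pairs of characters with different lifts -/
theorem two_char : ∃ c : ℝ, 0 < c ∧ ∀ D : ℕ, 2 ≤ D → ∀ q₁ ∈ Icc 1 D, ∀ q₂ ∈ Icc 1 D,
    ∀ χ₁ ∈ Prm q₁, ∀ χ₂ ∈ Prm q₂,
    (⟨q₁, χ₁⟩ : Σ q : ℕ, DirichletCharacter ℂ q) ≠ ⟨q₂, χ₂⟩ → χ₁ ^ 2 = 1 → χ₂ ^ 2 = 1 →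
    ∀ β₁ β₂ : ℝ, LF χ₁ (β₁ : ℂ) = 0 → LF χ₂ (β₂ : ℂ) = 0 →
      min β₁ β₂ ≤ 1 - c / Real.log D := by
  obtain ⟨cL, hcL, hL⟩ := landau
  obtain ⟨C₁, hC₁, hP⟩ := principal_upper
  obtain ⟨C₂, hC₂, hN⟩ := nontrivial_upper
  set C : ℝ := C₁ + C₂ with hC
  set a : ℝ := 1 / (64 * C) with ha
  have hC0 : 2 ≤ C := by linarith
  have ha0 : 0 < a := by positivity
  have haC : a * C = 1 / 64 := by rw [ha]; field_simp
  have ha1 : a ≤ 1 / 64 := by nlinarith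
  obtain ⟨A, hA, hpar⟩ := z3_par ha0
  refine ⟨min cL (min ((1 / 2) * a / A) (1 / 32)), by positivity,
    fun D hD q₁ hq₁ q₂ hq₂ χ₁ hχ₁ χ₂ hχ₂ hne hχ₁2 hχ₂2 β₁ β₂ hβ₁ hβ₂ => ?_⟩
  have hDR : (2 : ℝ) ≤ D := by exact_mod_cast hD
  have hlD0 : 0 < Real.log D := Real.log_pos (by linarith)
  by_cases hqq : q₁ = q₂
  swap
  · have h1 := hL D hD q₁ hq₁ q₂ hq₂ hqq χ₁ hχ₁ χ₂ hχ₂ hχ₁2 hχ₂2 β₁ β₂ hβ₁ hβ₂
    have h2 : min cL (min ((1 / 2) * a / A) (1 / 32)) / Real.log D ≤ cL / Real.log D :=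
      div_le_div_of_nonneg_right (min_le_left _ _) hlD0.le
    linarith
  subst hqq
  have hχne : χ₁ ≠ χ₂ := fun h => hne (by rw [h])
  obtain ⟨hℒ1, hexp, hσa, hlt, -⟩ := hpar D hD
  have hfin : min β₁ β₂ ≤ 1 - min ((1 / 2) * a / A) (1 / 32) / Real.log D := by
    apply z3_final ha0 hA (by norm_num) hD
    by_cases hcase : 1 / 16 ≤ 1 - min β₁ β₂
    · left; exact hcase
    right
    push Not at hcase
    set ℒ : ℝ := A * Real.log D with hℒ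
    set σ : ℝ := a / ℒ with hσ
    have hσ0 : 0 < σ := by positivity
    have hσ1 : σ ≤ 1 / 16 := by linarith
    have hq1 : 1 ≤ q₁ := (Finset.mem_Icc.1 hq₁).1
    have : NeZero q₁ := ⟨by omega⟩
    obtain ⟨hp₁, hχ₁1⟩ := z3_Prm hχ₁
    obtain ⟨hp₂, hχ₂1⟩ := z3_Prm hχ₂
    have hre1 := z3_zero_re hχ₁1 hβ₁
    have hre2 := z3_zero_re hχ₂1 hβ₂
    rw [Complex.ofReal_re] at hre1 hre2
    set β : ℝ := min β₁ β₂ with hβ
    have hβ1 : β ≤ β₁ := min_le_left _ _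
    have hβ2 : β ≤ β₂ := min_le_right _ _
    have hψ : χ₁ * χ₂ ≠ 1 := by
      intro h
      apply hχne
      have h1 : χ₁ * χ₂ = χ₂ * χ₂ := by rw [h, ← sq, hχ₂2]
      exact mul_right_cancel h1
    have h0 := pos_four hχ₁2 hχ₂2 hσ0
    have hltq := hlt q₁ hq₁ 0 (by rw [abs_zero]; positivity)
    have h1 := hP q₁ 0 σ ℒ hltq hℒ1 hexp hσ1
    have h4 := hN q₁ (χ₁ * χ₂) hψ 0 σ ℒ hltq hexp hσ1 ∅ (by simp)
    have key : ∀ (χ : DirichletCharacter ℂ q₁) (_ : χ ≠ 1)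
        (β' : ℝ) (_ : LF χ (β' : ℂ) = 0) (_ : β ≤ β') (_ : β' < 1),
        (Gj χ 0 (1 + σ)).re ≤ C₂ * ℒ - 1 / (σ + (1 - β)) := by
      intro χ hχ β' hβ' hββ hβ1
      have h2 := hN q₁ χ hχ 0 σ ℒ hltq hexp hσ1 {(β' : ℂ)} (by
        intro ρ' hρ'
        rw [Finset.mem_singleton] at hρ'
        subst hρ'
        refine ⟨hβ', ?_⟩
        have e : (1 + σ + ((0 : ℝ) : ℂ) * I - (β' : ℂ) : ℂ) = ((σ + (1 - β') : ℝ) : ℂ) := by
          push_cast; ring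
        rw [e, Complex.norm_real, Real.norm_of_nonneg (by linarith)]
        linarith)
      rw [Finset.sum_singleton] at h2
      have e : (1 + σ + ((0 : ℝ) : ℂ) * I - (β' : ℂ) : ℂ) = ((σ + (1 - β') : ℝ) : ℂ) := by
        push_cast; ring
      rw [e, z3_inv hσ0 (by linarith), z1_c0] at h2
      have h6 : 1 / (σ + (1 - β)) ≤ 1 / (σ + (1 - β')) :=
        one_div_le_one_div_of_le (by linarith) (by linarith)
      linarith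
    have k1 := key χ₁ hχ₁1 β₁ hβ₁ hβ1 hre1
    have k2 := key χ₂ hχ₂1 β₂ hβ₂ hβ2 hre2
    rw [z1_c0] at h1 h4
    rw [Finset.sum_empty, sub_zero] at h4
    have e2 : σ / (σ ^ 2 + 0 ^ 2) = 1 / σ := by field_simp; ring
    rw [e2] at h1
    have hc1 : C₁ * ℒ ≤ C * ℒ := mul_le_mul_of_nonneg_right (by linarith) (by linarith)
    have hc2 : C₂ * ℒ ≤ C * ℒ := mul_le_mul_of_nonneg_right (by linarith) (by linarith)
    have hCL : C * ℒ = 1 / (64 * σ) := by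
      have : C * ℒ * σ = 1 / 64 := by
        rw [hσ, ← haC]; field_simp
      field_simp
      linarith
    have h5 : 2 * (1 / (σ + (1 - β))) ≤ 1 / σ + 4 * (1 / (64 * σ)) := by
      rw [← hCL]
      linarith
    have hx0 : 0 < 1 - β := by linarith
    have h6 : 1 / σ + 4 * (1 / (64 * σ)) = (1 + 4 / 64) / σ := by field_simp
    rw [h6, mul_one_div, div_le_div_iff₀ (by positivity) hσ0] at h5
    linarith
  have h2 : min cL (min ((1 / 2) * a / A) (1 / 32)) / Real.log D ≤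
      min ((1 / 2) * a / A) (1 / 32) / Real.log D :=
    div_le_div_of_nonneg_right (min_le_right _ _) hlD0.le
  linarith

/-- the alternative of Landau and Page: no bad zero, or exactly one, simple, real, of a real
character -/
structure Exc (c : ℝ) (D q₁ : ℕ) (χ₁ : DirichletCharacter ℂ q₁) (β₁ : ℝ) : Prop where
  hq : q₁ ∈ Icc 1 D
  hχ : χ₁ ∈ Prm q₁
  hsq : χ₁ ^ 2 = 1
  hz : LF χ₁ (β₁ : ℂ) = 0
  h15 : 15 / 16 ≤ β₁
  h1 : β₁ < 1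
  hβ : 1 - c / Real.log D < β₁
  hB : LHM.BZ c D χ₁ = {(β₁ : ℂ)}
  hm : mlt (LF χ₁) (β₁ : ℂ) = 1
  hoth : ∀ q ∈ Icc 1 D, ∀ χ ∈ Prm q,
    (⟨q, χ⟩ : Σ q : ℕ, DirichletCharacter ℂ q) ≠ ⟨q₁, χ₁⟩ → LHM.BZ c D χ = ∅

theorem page : ∃ c₀ : ℝ, 0 < c₀ ∧ ∀ c : ℝ, 0 < c → c ≤ c₀ → LHM.ZF c ∧ ∀ D : ℕ, 2 ≤ D →
    (∀ q ∈ Icc 1 D, ∀ χ ∈ Prm q, LHM.BZ c D χ = ∅) ∨
    ∃ (q₁ : ℕ) (χ₁ : DirichletCharacter ℂ q₁) (β₁ : ℝ), Exc c D q₁ χ₁ β₁ := by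
  obtain ⟨cA, hA0, hA1, hA⟩ := LHM.ZA_pr
  obtain ⟨cC, hC0, hC⟩ := zero_free_complex
  obtain ⟨c1, h10, h1⟩ := one_char
  obtain ⟨c2, h20, h2⟩ := two_char
  refine ⟨min (min cA cC) (min c1 c2), by positivity, fun c hc hcc => ?_⟩
  have hcA : c ≤ cA := hcc.trans ((min_le_left _ _).trans (min_le_left _ _))
  have hcC : c ≤ cC := hcc.trans ((min_le_left _ _).trans (min_le_right _ _))
  have hc1 : c ≤ c1 := hcc.trans ((min_le_right _ _).trans (min_le_left _ _))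
  have hc2 : c ≤ c2 := hcc.trans ((min_le_right _ _).trans (min_le_right _ _))
  have hlogD : ∀ D : ℕ, 2 ≤ D → 0 < Real.log D := by
    intro D hD
    have : (2 : ℝ) ≤ D := by exact_mod_cast hD
    exact Real.log_pos (by linarith)
  have hmono : ∀ (D : ℕ), 2 ≤ D → ∀ c' : ℝ, c ≤ c' → 1 - c' / Real.log D ≤ 1 - c / Real.log D := by
    intro D hD c' h
    have := div_le_div_of_nonneg_right h (hlogD D hD).le
    linarith
  have hZF : LHM.ZF c := by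
    refine ⟨hc, hcA.trans hA1, fun D hD q hq χ hχ ρ hρ him hre => ?_⟩
    exact hA D hD q hq χ hχ ρ hρ him ((hmono D hD cA hcA).trans_lt hre)
  refine ⟨hZF, fun D hD => ?_⟩
  have hDR : (2 : ℝ) ≤ D := by exact_mod_cast hD
  obtain ⟨_, _, hW⟩ := LHM.WZB_pr c hZF
  obtain ⟨hW1, -, -⟩ := hW D hD
  have hreal : ∀ q ∈ Icc 1 D, ∀ χ ∈ Prm q, ∀ ρ ∈ LHM.BZ c D χ, χ ^ 2 = 1 := by
    intro q hq χ hχ ρ hρ
    by_contra hsq
    obtain ⟨k1, k2, k3, k4, k5⟩ := hW1 q hq χ hχ ρ hρ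
    have h3 := hC D hD q hq χ hχ hsq ρ k1 (by rw [k2, abs_zero]; positivity)
    have := hmono D hD cC hcC
    linarith
  by_cases hall : ∀ q ∈ Icc 1 D, ∀ χ ∈ Prm q, LHM.BZ c D χ = ∅
  · exact Or.inl hall
  right
  push Not at hall
  obtain ⟨q₁, hq₁, χ₁, hχ₁, hne⟩ := hall
  obtain ⟨ρ, hρ⟩ := hne
  have hsq := hreal q₁ hq₁ χ₁ hχ₁ ρ hρ
  obtain ⟨k1, k2, k3, k4, k5⟩ := hW1 q₁ hq₁ χ₁ hχ₁ ρ hρ
  have hρe : ((ρ.re : ℝ) : ℂ) = ρ := by apply Complex.ext <;> simp [k2]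
  have hq1 : 1 ≤ q₁ := (Finset.mem_Icc.1 hq₁).1
  have : NeZero q₁ := ⟨by omega⟩
  obtain ⟨-, hχ1⟩ := z3_Prm hχ₁
  have hd := LF_diff hχ1
  have h0 : LF χ₁ 2 ≠ 0 := LF_ne_zero hχ1 (by norm_num)
  have hsum : ∑ ρ' ∈ LHM.BZ c D χ₁, mlt (LF χ₁) ρ' < 2 := by
    refine h1 D hD q₁ hq₁ χ₁ hχ₁ hsq _ fun ρ' hρ' => ?_
    obtain ⟨m1, m2, m3, m4, m5⟩ := hW1 q₁ hq₁ χ₁ hχ₁ ρ' hρ'
    exact ⟨m1, m2, (hmono D hD c1 hc1).trans_lt m5⟩
  have hone : ∀ ρ' ∈ LHM.BZ c D χ₁, 1 ≤ mlt (LF χ₁) ρ' := fun ρ' hρ' =>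
    one_le_mlt hd h0 (hW1 q₁ hq₁ χ₁ hχ₁ ρ' hρ').1
  have hcard : (LHM.BZ c D χ₁).card < 2 := by
    have h3 : ((LHM.BZ c D χ₁).card : ℝ) ≤ ∑ ρ' ∈ LHM.BZ c D χ₁, mlt (LF χ₁) ρ' := by
      rw [Finset.card_eq_sum_ones, Nat.cast_sum]
      exact Finset.sum_le_sum fun ρ' hρ' => by simpa using hone ρ' hρ'
    have h4 : ((LHM.BZ c D χ₁).card : ℝ) < 2 := h3.trans_lt hsum
    exact_mod_cast h4
  have hBs : LHM.BZ c D χ₁ = {ρ} := by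
    have h5 : (LHM.BZ c D χ₁).card = 1 := by
      have := Finset.card_pos.2 ⟨ρ, hρ⟩
      omega
    obtain ⟨x, hx⟩ := Finset.card_eq_one.1 h5
    rw [hx] at hρ ⊢
    rw [Finset.mem_singleton] at hρ
    rw [hρ]
  refine ⟨q₁, χ₁, ρ.re, ⟨hq₁, hχ₁, hsq, ?_, k3, k4, k5, ?_, ?_, ?_⟩⟩
  · rw [hρe]; exact k1
  · rw [hρe]; exact hBs
  · rw [hρe]
    have h6 := hone ρ hρ
    rw [hBs, Finset.sum_singleton] at hsum
    unfold mlt at h6 hsum ⊢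
    have h7 : 1 ≤ analyticOrderNatAt (LF χ₁) ρ := by exact_mod_cast h6
    have h8 : analyticOrderNatAt (LF χ₁) ρ < 2 := by exact_mod_cast hsum
    have h9 : analyticOrderNatAt (LF χ₁) ρ = 1 := by omega
    rw [h9]
    simp
  · intro q hq χ hχ hneq
    by_contra hne'
    obtain ⟨ρ', hρ'⟩ := Finset.nonempty_iff_ne_empty.2 hne'
    obtain ⟨m1, m2, m3, m4, m5⟩ := hW1 q hq χ hχ ρ' hρ'
    have hρe' : ((ρ'.re : ℝ) : ℂ) = ρ' := by apply Complex.ext <;> simp [m2]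
    have h10 := h2 D hD q hq q₁ hq₁ χ hχ χ₁ hχ₁ hneq (hreal q hq χ hχ ρ' hρ') hsq ρ'.re ρ.re
      (by rw [hρe']; exact m1) (by rw [hρe]; exact k1)
    have h11 := hmono D hD c2 hc2
    rcases min_choice ρ'.re ρ.re with h | h <;> rw [h] at h10 <;> linarith

/-- the weights of the bad zeros -/
theorem Exc.wz {c : ℝ} {D q₁ : ℕ} {χ₁ : DirichletCharacter ℂ q₁} {β₁ : ℝ}
    (h : Exc c D q₁ χ₁ β₁) (x : ℝ) : LHM.wz c D χ₁ x = x ^ (β₁ - 1) := by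
  unfold LHM.wz
  rw [h.hB, Finset.sum_singleton, h.hm, one_mul, Complex.ofReal_re]

theorem Exc.wz_other {c : ℝ} {D q₁ : ℕ} {χ₁ : DirichletCharacter ℂ q₁} {β₁ : ℝ}
    (h : Exc c D q₁ χ₁ β₁) {q : ℕ} (hq : q ∈ Icc 1 D) {χ : DirichletCharacter ℂ q} (hχ : χ ∈ Prm q)
    (hne : (⟨q, χ⟩ : Σ q : ℕ, DirichletCharacter ℂ q) ≠ ⟨q₁, χ₁⟩) (x : ℝ) :
    LHM.wz c D χ x = 0 := by
  unfold LHM.wz
  rw [h.hoth q hq χ hχ hne, Finset.sum_empty]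

theorem wz_none {c : ℝ} {D : ℕ} (h : ∀ q ∈ Icc 1 D, ∀ χ ∈ Prm q, LHM.BZ c D χ = ∅) {q : ℕ}
    (hq : q ∈ Icc 1 D) {χ : DirichletCharacter ℂ q} (hχ : χ ∈ Prm q) (x : ℝ) :
    LHM.wz c D χ x = 0 := by
  unfold LHM.wz
  rw [h q hq χ hχ, Finset.sum_empty]

end Pool.Agent.SD
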