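import Pool.Agent.Lib_helper59.SZ.W
import Pool.Agent.Lib_helper26.SD.Page
import Pool.Agent.Lib_helper3.FGP.P03

/-!
# The energy when there is no exceptional zero of conductor at most `K`
-/

set_option autoImplicit false

namespace Pool.Agent.SD

open Finset Pool.Agent.Var35 Pool.Agent.Var73 Pool.Agent.PV Pool.Agent.FGP Pool.Agent.SZ

theorem bz_empty : ∃ c₀ : ℝ, 0 < c₀ ∧ ∀ b : ℝ, 0 < b → LHM.ZF (min c₀ (20 * b)) ∧
    ∀ K : ℕ, 2 ≤ K → (∀ q ∈ Icc 1 K, ∀ χ ∈ GA.Prm q, χ ^ 2 = 1 → ∀ β : ℝ, GA.LF χ (β : ℂ) = 0 →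
      β ≤ 1 - b / Real.log K) →
    ∀ q ∈ Icc 1 K, ∀ χ ∈ GA.Prm q, LHM.BZ (min c₀ (20 * b)) (K ^ 20) χ = ∅ := by
  obtain ⟨c₀, hc₀, h⟩ := page
  refine ⟨c₀, hc₀, fun b hb => ?_⟩
  obtain ⟨hZF, hD⟩ := h (min c₀ (20 * b)) (lt_min hc₀ (by positivity)) (min_le_left _ _)
  refine ⟨hZF, fun K hK hno q hq χ hχ => ?_⟩
  have hK2 : (2 : ℝ) ≤ K := by exact_mod_cast hK
  have hlK : 0 < Real.log K := Real.log_pos (by linarith)
  have hD2 : 2 ≤ K ^ 20 := le_trans hK (Nat.le_self_pow (by norm_num) K)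
  have hKD : K ≤ K ^ 20 := Nat.le_self_pow (by norm_num) K
  have hqD : q ∈ Icc 1 (K ^ 20) := by
    rw [Finset.mem_Icc] at hq ⊢
    omega
  rcases hD (K ^ 20) hD2 with hn | ⟨q₁, χ₁, β₁, hE⟩
  · exact hn q hqD χ hχ
  · by_cases heq : (⟨q, χ⟩ : Σ q : ℕ, DirichletCharacter ℂ q) = ⟨q₁, χ₁⟩
    · exfalso
      have hq' : q = q₁ := congrArg Sigma.fst heq
      subst hq'
      have hχ' : χ = χ₁ := by simpa using heq
      subst hχ'
      have h1 := hno q hq χ hχ hE.hsq β₁ hE.hz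
      have h2 := hE.hβ
      have e1 : Real.log ((K ^ 20 : ℕ) : ℝ) = 20 * Real.log K := by
        push_cast
        rw [Real.log_pow]
        norm_num
      rw [e1] at h2
      have h3 : min c₀ (20 * b) / (20 * Real.log K) ≤ b / Real.log K := by
        rw [div_le_div_iff₀ (by positivity) hlK]
        have := min_le_right c₀ (20 * b)
        nlinarith
      linarith
    · exact hE.hoth q hqD χ hχ heq

theorem ex_eq {c : ℝ} {K : ℕ} (hK : 2 ≤ K)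
    (h : ∀ q ∈ Icc 1 K, ∀ χ ∈ GA.Prm q, LHM.BZ c (K ^ 20) χ = ∅) (N : ℕ) :
    LHM.EEX c N K = EE N K := by
  unfold LHM.EEX EE
  refine Finset.sum_congr rfl fun n _ => ?_
  unfold LHM.EX En
  congr 1
  refine Finset.sum_congr rfl fun q hq => Finset.sum_congr rfl fun ψ hψ => ?_
  have hq' := Finset.mem_Ioc.1 hq
  have hψ' : ψ ∈ GA.Prm q := p03_Prm q hq'.1 hψ
  have hb := h q (Finset.mem_Icc.2 ⟨by omega, hq'.2⟩) ψ hψ'
  have hT : LHM.TX c ψ N K n = TS ψ N K n := by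
    unfold LHM.TX LHM.wz
    rw [hb]
    simp
  rw [hT]

theorem eew_zero {q₁ : ℕ} (χ : DirichletCharacter ℂ q₁) (N K : ℕ) : EEW χ 0 N K = EE N K := by
  unfold EEW EE
  refine Finset.sum_congr rfl fun n _ => ?_
  unfold EW En
  congr 1
  refine Finset.sum_congr rfl fun q _ => Finset.sum_congr rfl fun ψ _ => ?_
  have hT : TW χ 0 ψ N K n = TS ψ N K n := by
    unfold TW
    simp
  rw [hT]

theorem e0 (hE : ∀ c : ℝ, LHM.ZF c → LHM.ZE c) : ∀ b : ℝ, 0 < b → ∃ C c B : ℝ, 0 < C ∧ 0 < c ∧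
    1 ≤ B ∧ ∃ K0 : ℕ, ∀ K ≥ K0, ∀ N : ℕ, Rg K N → (K : ℝ) ^ B ≤ N →
    (∀ q ∈ Icc 1 K, ∀ χ ∈ GA.Prm q, χ ^ 2 = 1 → ∀ β : ℝ, GA.LF χ (β : ℂ) = 0 →
      β ≤ 1 - b / Real.log K) →
    EE N K ≤ C * N * (Real.exp (-(c * Real.log N / Real.log K)) + 1 / Real.sqrt K) := by
  obtain ⟨c₀, hc₀, h⟩ := bz_empty
  intro b hb
  obtain ⟨hZF, hB⟩ := h b hb
  obtain ⟨C, c, B, hC, hc, hB1, K0, hK0⟩ := hE _ hZF
  refine ⟨C, c, B, hC, hc, hB1, max K0 2, fun K hK N hR hKN hno => ?_⟩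
  have hK2 : 2 ≤ K := (le_max_right _ _).trans hK
  have h1 := hK0 K ((le_max_left _ _).trans hK) N hR hKN
  rwa [ex_eq hK2 (hB K hK2 hno) N] at h1

end Pool.Agent.SD
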