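import Pool.Agent.Lib_helper59.SZ.W

/-!
# Quadratic characters of prime modulus
-/

set_option autoImplicit false

namespace Pool.Agent.SD

open Finset

theorem quad (p : ℕ) (hp : p.Prime) (h2 : p ≠ 2) : ∃ χ : DirichletCharacter ℂ p, SZ.Qd χ := by
  have : Fact p.Prime := ⟨hp⟩
  have hchar : ringChar (ZMod p) ≠ 2 := by
    rw [ZMod.ringChar_zmod_n]
    exact h2
  have hne := quadraticChar_ne_one hchar
  set χ : DirichletCharacter ℂ p := (quadraticChar (ZMod p)).ringHomComp (Int.castRingHom ℂ) with hχ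
  have hχ1 : χ ≠ 1 := by
    rw [hχ]
    exact (MulChar.ringHomComp_ne_one_iff (Int.cast_injective)).2 hne
  have hχ2 : χ ^ 2 = 1 := ((quadraticChar_isQuadratic (F := ZMod p)).comp _).sq_eq_one
  have hprim : χ.IsPrimitive := by
    rw [DirichletCharacter.isPrimitive_def]
    rcases (Nat.dvd_prime hp).1 χ.conductor_dvd_level with h | h
    · exact absurd (DirichletCharacter.eq_one_iff_conductor_eq_one.2 h) hχ1
    · exact h
  exact ⟨χ, GA.mem_Prm.2 ⟨hprim, hχ1⟩, hχ2, hp.one_lt.le⟩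

theorem exists_quad (q0 : ℕ) : ∃ K0 : ℕ, ∀ K ≥ K0, ∃ (p : ℕ) (χ : DirichletCharacter ℂ p),
    SZ.Qd χ ∧ q0 ≤ p ∧ p ≤ K := by
  refine ⟨2 * (q0 + 2), fun K hK => ?_⟩
  obtain ⟨p, hp, h1, h2⟩ := Nat.exists_prime_lt_and_le_two_mul (q0 + 2) (by omega)
  obtain ⟨χ, hχ⟩ := quad p hp (by omega)
  exact ⟨p, χ, hχ, by omega, by omega⟩

end Pool.Agent.SD
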