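import Pool.Agent.Lib_helper26.SD.Geo
import Pool.Agent.Lib_helper26.SD.E0
import Pool.Agent.Lib_helper26.SD.Cnt
import Pool.Agent.Lib_helper26.SD.Large
import Pool.Agent.Lib_helper26.SD.Quad

/-!
# SZ, block AA: the two-sided formula for every `X`
-/

set_option autoImplicit false

namespace Pool.Agent.SD

open Finset Pool.Agent.Var35 Pool.Agent.Var73 Pool.Agent.PV Pool.Agent.FGP Pool.Agent.SZ

/-- comparison of the exceptional terms at `N = ⌊X⌋` and `X` -/
theorem exc_diff {X N A β : ℝ} (hN : 1 ≤ N) (hNX : N ≤ X) (hXN : X ≤ N + 1) (hA : 1 ≤ A)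
    (hβ1 : 1 / 2 ≤ β) (hβ2 : β ≤ 1) :
    |X ^ (2 * β - 1) * max 0 (Real.log (X / A)) -
      (N ^ (β - 1)) ^ 2 * N * max 0 (Real.log (N / A))| ≤ 2 + Real.log X := by
  have hN0 : 0 < N := by linarith
  have hX0 : 0 < X := by linarith
  have hA0 : 0 < A := by linarith
  set s : ℝ := 2 * β - 1 with hs
  have hs0 : 0 ≤ s := by linarith
  have hs1 : s ≤ 1 := by linarith
  have e1 : (N ^ (β - 1)) ^ 2 * N = N ^ s := by
    rw [← Real.rpow_natCast, ← Real.rpow_mul hN0.le]
    nth_rewrite 2 [← Real.rpow_one N]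
    rw [← Real.rpow_add hN0]
    congr 1
    push_cast
    rw [hs]
    ring
  rw [e1]
  have hlX : 0 ≤ Real.log X := Real.log_nonneg (by linarith)
  have hu : max 0 (Real.log (X / A)) ≤ Real.log X := by
    apply max_le hlX
    apply Real.log_le_log (by positivity)
    exact div_le_self hX0.le hA
  have hvu : max 0 (Real.log (N / A)) ≤ max 0 (Real.log (X / A)) := by
    apply max_le_max le_rfl
    apply Real.log_le_log (by positivity)
    gcongr
  have hv0 : 0 ≤ max 0 (Real.log (N / A)) := le_max_left _ _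
  have huv : max 0 (Real.log (X / A)) - max 0 (Real.log (N / A)) ≤ 1 / N := by
    have h1 : Real.log (X / A) ≤ Real.log (N / A) + 1 / N := by
      have h2 : Real.log (X / A) = Real.log (N / A) + Real.log (X / N) := by
        rw [← Real.log_mul (by positivity) (by positivity)]
        congr 1
        field_simp
      have h3 : Real.log (X / N) ≤ X / N - 1 := Real.log_le_sub_one_of_pos (by positivity)
      have h4 : X / N - 1 ≤ 1 / N := by
        rw [div_sub_one hN0.ne']
        apply div_le_div_of_nonneg_right _ hN0.le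
        linarith
      linarith
    have h5 : 0 ≤ 1 / N := by positivity
    have h6 : max 0 (Real.log (X / A)) ≤ max 0 (Real.log (N / A)) + 1 / N := by
      apply max_le
      · linarith
      · have := le_max_right 0 (Real.log (N / A))
        linarith
    linarith
  have hXs : X ^ s ≤ X := by
    calc X ^ s ≤ X ^ (1 : ℝ) := Real.rpow_le_rpow_of_exponent_le (by linarith) hs1
      _ = X := Real.rpow_one X
  have hXs0 : 0 ≤ X ^ s := Real.rpow_nonneg hX0.le _
  have hNs : N ^ s ≤ X ^ s := Real.rpow_le_rpow hN0.le hNX hs0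
  have hXN2 : X ^ s - N ^ s ≤ 1 := by
    have h1 : X ^ s = N ^ s * (X / N) ^ s := by
      rw [← Real.mul_rpow hN0.le (by positivity)]
      congr 1
      field_simp
    have h2 : (X / N) ^ s ≤ X / N := by
      have h3 : 1 ≤ X / N := by rw [le_div_iff₀ hN0]; linarith
      calc (X / N) ^ s ≤ (X / N) ^ (1 : ℝ) := Real.rpow_le_rpow_of_exponent_le h3 hs1
        _ = X / N := Real.rpow_one _
    have h4 : N ^ s ≤ N := by
      calc N ^ s ≤ N ^ (1 : ℝ) := Real.rpow_le_rpow_of_exponent_le hN hs1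
        _ = N := Real.rpow_one N
    have h5 : 0 ≤ N ^ s := Real.rpow_nonneg hN0.le _
    have h6 : X / N ≤ 1 + 1 / N := by
      rw [div_le_iff₀ hN0, add_mul, one_mul, one_div_mul_cancel hN0.ne']
      exact hXN
    have h7 : N ^ s * (1 / N) ≤ 1 := by
      rw [mul_one_div, div_le_one hN0]
      exact h4
    have h8 : N ^ s * (X / N) ^ s ≤ N ^ s * (1 + 1 / N) :=
      mul_le_mul_of_nonneg_left (h2.trans h6) h5
    have e9 : N ^ s * (1 + 1 / N) = N ^ s + N ^ s * (1 / N) := by ring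
    rw [h1]
    linarith
  rw [abs_of_nonneg (by
    have := mul_le_mul hNs hvu hv0 hXs0
    linarith)]
  have h9 : X ^ s * (max 0 (Real.log (X / A)) - max 0 (Real.log (N / A))) ≤ 2 := by
    calc X ^ s * (max 0 (Real.log (X / A)) - max 0 (Real.log (N / A))) ≤ X * (1 / N) := by
          apply mul_le_mul hXs huv (by linarith) hX0.le
      _ ≤ 2 := by
          rw [mul_one_div, div_le_iff₀ hN0]
          linarith
  have h10 : (X ^ s - N ^ s) * max 0 (Real.log (N / A)) ≤ Real.log X := by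
    calc (X ^ s - N ^ s) * max 0 (Real.log (N / A)) ≤ 1 * Real.log X := by
          apply mul_le_mul hXN2 (hvu.trans hu) hv0 (by norm_num)
      _ = _ := one_mul _
  have e9 : X ^ s * max 0 (Real.log (X / A)) - N ^ s * max 0 (Real.log (N / A)) =
      X ^ s * (max 0 (Real.log (X / A)) - max 0 (Real.log (N / A))) +
        (X ^ s - N ^ s) * max 0 (Real.log (N / A)) := by ring
  rw [e9]
  linarith

theorem exp_small {x M : ℝ} (hM : 0 < M) (hx : M ≤ x) : Real.exp (-x) ≤ 1 / M := by
  have hx0 : 0 < x := by linarith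
  rw [Real.exp_neg, inv_eq_one_div]
  apply one_div_le_one_div_of_le hM
  have := Real.add_one_le_exp x
  linarith

/-- `SZ.AA` with `a = 17` -/
def AA17 : Prop := ∃ b c C : ℝ, 0 < b ∧ 0 < c ∧ 0 < C ∧ ∀ d : ℝ, 0 < d → d ≤ c →
  ∃ X₀ : ℝ, ∀ X : ℝ, X₀ ≤ X → ∀ W : ℕ → ℝ,
  (((∀ Q, W Q = 0) ∧ ∀ (q : ℕ) (χ : DirichletCharacter ℂ q) (β : ℝ), ¬ IsExc 17 b d X q χ β) ∨
    ∃ (q : ℕ) (χ : DirichletCharacter ℂ q) (β : ℝ), IsExc 17 b d X q χ β ∧
      ∀ Q : ℕ, W Q = X ^ (2 * β - 1) * max 0 (Real.log (X / (q * Q)))) →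
  ∀ Y : ℝ, X ^ (1 - d) ≤ Y → Y ≤ X / C →
  ∑ Q ∈ QR Y, |V X Q - X * Real.log Q + W Q| ≤
    C * Real.exp (-(c / d)) * (X * Real.log X) * (Y / Real.log Y)

theorem AA17_pr (h18 : S18) (h18g : S18g) (hE : ∀ c : ℝ, LHM.ZF c → LHM.ZE c) : AA17 := by
  obtain ⟨C₁, hC₁, hS⟩ := h18
  obtain ⟨C₂, c₂, B₂, ε₂, hC₂, hc₂, hB₂, hε₂, hG⟩ := h18g
  set b : ℝ := ε₂ / 17 with hb
  have hb0 : 0 < b := by positivity
  obtain ⟨C₃, c₃, B₃, hC₃, hc₃, hB₃, K3, hK3⟩ := e0 hE (16 * b) (by positivity)
  obtain ⟨N0, hN0⟩ := cmp_pr (1 / 4) (by norm_num)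
  obtain ⟨Y₀, hY₀, hcnt⟩ := cnt
  set c : ℝ := min (min (1 / 7000) (min (1 / (34 * B₂)) (1 / (34 * B₃))))
    (min (c₃ / (68 * (C₃ + 1))) (c₂ / 34)) with hc
  have hc0 : 0 < c := by
    refine lt_min (lt_min (by norm_num) (lt_min (by positivity) (by positivity)))
      (lt_min (by positivity) (by positivity))
  have hcA : c ≤ 1 / 7000 := (min_le_left _ _).trans (min_le_left _ _)
  have hcB2 : c ≤ 1 / (34 * B₂) :=
    (min_le_left _ _).trans ((min_le_right _ _).trans (min_le_left _ _))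
  have hcB3 : c ≤ 1 / (34 * B₃) :=
    (min_le_left _ _).trans ((min_le_right _ _).trans (min_le_right _ _))
  have hcC3 : c ≤ c₃ / (68 * (C₃ + 1)) := (min_le_right _ _).trans (min_le_left _ _)
  have hcc2 : c ≤ c₂ / 34 := (min_le_right _ _).trans (min_le_right _ _)
  set CT : ℝ := 2 * (C₁ * Real.sqrt (2 * C₃) + C₂ + 2) + 21 with hCT
  have hsq0 : 0 ≤ Real.sqrt (2 * C₃) := Real.sqrt_nonneg _
  have hCT0 : 21 ≤ CT := by
    have : 0 ≤ C₁ * Real.sqrt (2 * C₃) := by positivity
    linarith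
  refine ⟨b, c, CT, hb0, hc0, by linarith, fun d hd hdc => ?_⟩
  set E : ℝ := Real.exp (-(c / d)) with hEd
  have hE0 : 0 < E := Real.exp_pos _
  have hE1 : E ≤ 1 := by
    rw [hEd]
    apply Real.exp_le_one_iff.2
    have : 0 < c / d := by positivity
    linarith
  obtain ⟨C', q₀, K1, hS1⟩ := hS E hE0
  obtain ⟨C'', q₀', K2, hG1⟩ := hG E hE0
  obtain ⟨K4, hK4⟩ := exists_quad q₀
  obtain ⟨ε, hε, hnear⟩ := near_large q₀'
  set M : ℝ := (K1 : ℝ) + K2 + K3 + K4 + |C'| + |C''| + (N0 + 1) + Y₀ + 1 / E ^ 4 +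
    4 * C₃ ^ 2 + b / (d * ε) + 2 * b / d with hM
  have hK1R : (0 : ℝ) ≤ K1 := Nat.cast_nonneg _
  have hK2R : (0 : ℝ) ≤ K2 := Nat.cast_nonneg _
  have hK3R : (0 : ℝ) ≤ K3 := Nat.cast_nonneg _
  have hK4R : (0 : ℝ) ≤ K4 := Nat.cast_nonneg _
  have hN0R : (0 : ℝ) ≤ N0 := Nat.cast_nonneg _
  have hC'0 := abs_nonneg C'
  have hC''0 := abs_nonneg C''
  have hp1 : 0 < 1 / E ^ 4 := by positivity
  have hp2 : 0 < 4 * C₃ ^ 2 := by positivity
  have hp3 : 0 < b / (d * ε) := by positivity
  have hp4 : 0 < 2 * b / d := by positivity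
  obtain ⟨X₀, hX₀⟩ := gs_ex hd (hdc.trans hcA) hE0 hE1 M
  refine ⟨X₀, fun X hX W hW Y hY1 hY2 => ?_⟩
  have h := hX₀ X hX
  have hXpos := h.X0
  have hlX := h.logX
  have hY8 : Y ≤ X / 8 := by
    refine hY2.trans ?_
    apply div_le_div_of_nonneg_left hXpos.le (by norm_num) (by linarith)
  have hy : Gy d E M X Y := ⟨h, hY1, hY8⟩
  have hY0 := hy.Y0
  set K : ℕ := ⌊X ^ (17 * d)⌋₊ with hK
  set N : ℕ := ⌊X⌋₊ with hN
  have hKM : M ≤ K := h.f4.trans h.K2
  have hNM : (N0 : ℝ) ≤ N := by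
    have h1 := h.xM
    have h2 := h.N2
    rw [← hN] at h2
    linarith
  have hNN0 : N0 ≤ N := by exact_mod_cast hNM
  have hYM : Y₀ ≤ Y := by
    have h1 : X ^ (17 * d) ≤ Y := by
      refine le_trans (Real.rpow_le_rpow_of_exponent_le h.X1 ?_) hy.Y1
      linarith [hdc.trans hcA]
    have h2 := h.f4
    linarith
  obtain ⟨hcnt1, hcnt2⟩ := hcnt Y hYM
  have hlK := h.logK
  rw [← hK] at hlK
  have hK10 := h.K10
  rw [← hK] at hK10
  have hK0 : (0 : ℝ) < K := by linarith
  have hlK0 : 0 < Real.log K := Real.log_pos (by linarith)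
  have hlN := h.logN
  rw [← hN] at hlN
  have hlN2 := h.logN2
  rw [← hN] at hlN2
  have hNR : (500 : ℝ) ≤ N := by
    have h1 := h.N3
    rw [← hN] at h1
    linarith [h.X100]
  have hN0' : (0 : ℝ) < N := by linarith
  -- the exponentials
  have hratio : 1 / (34 * d) ≤ Real.log N / Real.log K := by
    rw [div_le_div_iff₀ (by positivity) hlK0]
    have h1 := hlK.2
    have h2 := mul_le_mul_of_nonneg_left hlN hd.le
    linarith
  have hexp2 : Real.exp (-(c₂ * Real.log N / Real.log K)) ≤ E := by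
    rw [hEd]
    apply Real.exp_le_exp.2
    apply neg_le_neg
    have h1 : c / d ≤ c₂ * (1 / (34 * d)) := by
      rw [div_le_iff₀ hd]
      have : c₂ * (1 / (34 * d)) * d = c₂ / 34 := by field_simp
      rw [this]
      exact hcc2
    have h2 : c₂ * (1 / (34 * d)) ≤ c₂ * (Real.log N / Real.log K) :=
      mul_le_mul_of_nonneg_left hratio hc₂.le
    rw [mul_div_assoc]
    linarith
  have hexp3 : Real.exp (-(c₃ * Real.log N / Real.log K)) ≤ E ^ 2 ∧
      Real.exp (-(c₃ * Real.log N / Real.log K)) ≤ 1 / (2 * (C₃ + 1)) := by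
    have h2 : c₃ * (1 / (34 * d)) ≤ c₃ * Real.log N / Real.log K := by
      rw [mul_div_assoc]
      exact mul_le_mul_of_nonneg_left hratio hc₃.le
    have h3 : c ≤ c₃ / 68 := by
      refine hcC3.trans ?_
      apply div_le_div_of_nonneg_left hc₃.le (by norm_num) (by linarith)
    constructor
    · rw [hEd, ← Real.exp_nat_mul]
      apply Real.exp_le_exp.2
      have h4 : 2 * (c / d) ≤ c₃ * (1 / (34 * d)) := by
        have : c₃ * (1 / (34 * d)) = 2 * ((c₃ / 68) / d) := by field_simp; ring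
        rw [this]
        have := div_le_div_of_nonneg_right h3 hd.le
        linarith
      push_cast
      linarith
    · apply exp_small (by positivity)
      refine le_trans ?_ h2
      have h4 : d ≤ c₃ / (68 * (C₃ + 1)) := hdc.trans hcC3
      rw [le_div_iff₀ (by positivity)] at h4
      rw [mul_one_div, le_div_iff₀ (by positivity)]
      linarith
  have hKE : 1 / Real.sqrt K ≤ E ^ 2 ∧ C₃ * (1 / Real.sqrt K) ≤ 1 / 2 := by
    have h1 : 1 / E ^ 2 ≤ Real.sqrt K := by
      apply Real.le_sqrt_of_sq_le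
      have : (1 / E ^ 2) ^ 2 = 1 / E ^ 4 := by
        rw [div_pow, one_pow, ← pow_mul]
      rw [this]
      linarith
    have h2 : 2 * C₃ ≤ Real.sqrt K := by
      apply Real.le_sqrt_of_sq_le
      have : (2 * C₃) ^ 2 = 4 * C₃ ^ 2 := by ring
      rw [this]
      linarith
    have hsK : 0 < Real.sqrt K := Real.sqrt_pos.2 hK0
    constructor
    · rw [div_le_iff₀ hsK]
      rw [div_le_iff₀ (by positivity)] at h1
      linarith
    · rw [mul_one_div, div_le_div_iff₀ hsK (by norm_num)]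
      linarith
  have hdB : ∀ B : ℝ, 1 ≤ B → c ≤ 1 / (34 * B) → 17 * d * B ≤ 1 / 2 := by
    intro B hB hcB
    have h1 : d ≤ 1 / (34 * B) := hdc.trans hcB
    rw [le_div_iff₀ (by positivity)] at h1
    linarith
  have hcmp := hN0 N hNN0 ⌊Y⌋₊ hy.cond (Nat.floor_le_floor hy.YX)
  have hfin : ∀ (T : ℝ), 0 ≤ T → T ≤ (C₁ * Real.sqrt (2 * C₃) + C₂ + 2) * E * Real.log X →
      ∀ m : ℕ → ℝ, (∑ Q ∈ QQ ⌊Y⌋₊, |SQ N Q - m Q| ≤ T * N * (⌊Y⌋₊ / Real.log N)) →
      (∀ Q ∈ QR Y, |m Q - X * Real.log Q + W Q| ≤ 4 * Real.log X) →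
      ∑ Q ∈ QR Y, |V X Q - X * Real.log Q + W Q| ≤
        CT * Real.exp (-(c / d)) * (X * Real.log X) * (Y / Real.log Y) := by
    intro T hT hT2 m hm1 hm2
    have h1 := hy.total hT (by linarith) hcmp hm1 hm2 hcnt2
    refine h1.trans ?_
    have hlY := hy.logY
    have hZ : 0 ≤ Y / Real.log Y := by positivity
    apply mul_le_mul_of_nonneg_right _ hZ
    rw [← hEd]
    have h3 := h.f7
    have h4 : E * X ≤ E * X * Real.log X := by
      have h41 : 0 ≤ E * X := by positivity
      exact le_mul_of_one_le_right h41 (by linarith)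
    have h5 : 2 * T * X ≤ 2 * ((C₁ * Real.sqrt (2 * C₃) + C₂ + 2) * E * Real.log X) * X := by
      gcongr
    calc E * X + 2 * T * X + 3 * (4 * Real.log X) ≤ E * X * Real.log X +
          2 * ((C₁ * Real.sqrt (2 * C₃) + C₂ + 2) * E * Real.log X) * X + 2 * (E * X * Real.log X) := by
          linarith
      _ = (CT - 18) * E * (X * Real.log X) := by
          rw [hCT]
          ring
      _ ≤ CT * E * (X * Real.log X) := by
          have h42 : 0 ≤ E * (X * Real.log X) := by positivity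
          have h43 : (CT - 18) * E * (X * Real.log X) = CT * E * (X * Real.log X) -
            18 * (E * (X * Real.log X)) := by ring
          rw [h43]
          linarith
  have hQlog : ∀ Q ∈ QR Y, 0 ≤ Real.log Q ∧ Real.log Q ≤ Real.log X ∧ (1 : ℝ) ≤ Q := by
    intro Q hQ
    obtain ⟨hQp, hYQ, hQ2⟩ := hy.Qf hQ
    have h1 : (1 : ℝ) ≤ Q := by exact_mod_cast hQp.one_lt.le
    refine ⟨Real.log_nonneg h1, Real.log_le_log (by linarith) ?_, h1⟩
    linarith
  have hNX1 := h.N1
  have hNX2 := h.N2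
  rw [← hN] at hNX1 hNX2
  rcases hW with ⟨hW0, hno⟩ | ⟨q, χ, β, hexc, hWq⟩
  · -- no exceptional zero
    have hno' : ∀ q ∈ Icc 1 K, ∀ χ ∈ GA.Prm q, χ ^ 2 = 1 → ∀ β : ℝ, GA.LF χ (β : ℂ) = 0 →
        β ≤ 1 - 16 * b / Real.log K := by
      intro q hq χ hχ hsq β hβ
      by_contra hcon
      push Not at hcon
      have hq' := Finset.mem_Icc.1 hq
      refine hno q χ β ⟨?_, ⟨hχ, hsq, hq'.1⟩, hβ, ?_⟩
      · have h1 : (q : ℝ) ≤ K := by exact_mod_cast hq'.2
        exact h1.trans h.K1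
      · refine lt_of_le_of_lt ?_ hcon
        have h1 : 16 * b / Real.log K ≤ b / (d * Real.log X) := by
          rw [div_le_div_iff₀ hlK0 (by positivity)]
          have h2 := mul_le_mul_of_nonneg_left hlK.1 hb0.le
          linarith
        linarith
    have hK3' : K3 ≤ K := by
      have : (K3 : ℝ) ≤ K := by linarith
      exact_mod_cast this
    have hEE := hK3 K hK3' N h.rg (h.KB (by linarith) (hdB B₃ hB₃ hcB3)) hno'
    have hK4' : K4 ≤ K := by
      have : (K4 : ℝ) ≤ K := by linarith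
      exact_mod_cast this
    obtain ⟨p, χ, hQd, hp1, hp2⟩ := hK4 K hK4'
    have hK1' : K1 ≤ K := by
      have : (K1 : ℝ) ≤ K := by linarith
      exact_mod_cast this
    have hEEN : EE N K ≤ N := by
      refine hEE.trans ?_
      have h1 : C₃ * (Real.exp (-(c₃ * Real.log N / Real.log K)) + 1 / Real.sqrt K) ≤ 1 := by
        have h2 : C₃ * Real.exp (-(c₃ * Real.log N / Real.log K)) ≤ 1 / 2 := by
          calc C₃ * Real.exp (-(c₃ * Real.log N / Real.log K)) ≤ C₃ * (1 / (2 * (C₃ + 1))) :=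
                mul_le_mul_of_nonneg_left hexp3.2 hC₃.le
            _ ≤ 1 / 2 := by
                rw [mul_one_div, div_le_div_iff₀ (by positivity) (by norm_num)]
                linarith
        rw [mul_add]
        linarith [hKE.2]
      calc _ = N * (C₃ * (Real.exp (-(c₃ * Real.log N / Real.log K)) + 1 / Real.sqrt K)) := by ring
        _ ≤ N * 1 := mul_le_mul_of_nonneg_left h1 hN0'.le
        _ = N := mul_one _
    have h1 := hS1 K hK1' N h.rg p χ 0 hQd le_rfl zero_le_one hp1 hp2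
      (by rw [eew_zero]; exact hEEN) ⌊Y⌋₊ hy.ry hy.YN
    rw [eew_zero] at h1
    have hsq : Real.sqrt (EE N K / N) ≤ Real.sqrt (2 * C₃) * E := by
      apply Real.sqrt_le_iff.2
      refine ⟨by positivity, ?_⟩
      rw [mul_pow, Real.sq_sqrt (by positivity), div_le_iff₀ hN0']
      refine hEE.trans ?_
      have h2 : Real.exp (-(c₃ * Real.log N / Real.log K)) + 1 / Real.sqrt K ≤ 2 * E ^ 2 := by
        linarith [hexp3.1, hKE.1]
      calc C₃ * N * (Real.exp (-(c₃ * Real.log N / Real.log K)) + 1 / Real.sqrt K) ≤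
          C₃ * N * (2 * E ^ 2) := mul_le_mul_of_nonneg_left h2 (by positivity)
        _ = _ := by ring
    have hlN0 : 0 ≤ Real.log N := by linarith
    have hC'b : |C'| ≤ E * Real.log X := by
      have := h.f6
      linarith
    refine hfin ((C₁ * Real.sqrt (2 * C₃) + 2) * E * Real.log X) (by positivity) ?_
      (fun Q => mW N Q p 0) ?_ ?_
    · have h5 : 0 ≤ C₂ * E * Real.log X := by positivity
      have h6 : (C₁ * Real.sqrt (2 * C₃) + C₂ + 2) * E * Real.log X =
        (C₁ * Real.sqrt (2 * C₃) + 2) * E * Real.log X + C₂ * E * Real.log X := by ring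
      rw [h6]
      linarith
    · refine h1.trans ?_
      have hYf : (0 : ℝ) ≤ (⌊Y⌋₊ : ℝ) / Real.log N := by positivity
      apply mul_le_mul_of_nonneg_right _ hYf
      apply mul_le_mul_of_nonneg_right _ hN0'.le
      have h2 : C₁ * Real.sqrt (EE N K / N) * Real.log N ≤
          C₁ * (Real.sqrt (2 * C₃) * E) * Real.log X := by
        gcongr
      have h3 : E * Real.log N ≤ E * Real.log X := by gcongr
      have h4 : C' ≤ E * Real.log X := (le_abs_self C').trans hC'b
      calc _ ≤ C₁ * (Real.sqrt (2 * C₃) * E) * Real.log X + E * Real.log X + E * Real.log X := by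
            linarith
        _ = _ := by ring
    · intro Q hQ
      obtain ⟨k1, k2, k3⟩ := hQlog Q hQ
      have e1 : mW N Q p 0 - X * Real.log Q + W Q = (N - X) * Real.log Q := by
        unfold mW
        rw [hW0 Q]
        ring
      rw [e1, abs_mul, abs_of_nonneg k1]
      have h2 : |(N : ℝ) - X| ≤ 1 := by
        rw [abs_le]
        constructor <;> linarith
      calc |(N : ℝ) - X| * Real.log Q ≤ 1 * Real.log X := by gcongr
        _ ≤ _ := by linarith
  · -- an exceptional zero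
    obtain ⟨hq, hQd, hz, hβ⟩ := hexc
    have : NeZero q := ⟨by have := hQd.2.2; omega⟩
    have hβ1 : β < 1 := by
      have := GA.z3_zero_re (GA.z3_Prm hQd.1).2 hz
      rwa [Complex.ofReal_re] at this
    have hdl : 0 < d * Real.log X := by positivity
    have hMl : M ≤ Real.log X := by
      have h1 := h.f6
      have h2 : E * Real.log X ≤ 1 * Real.log X := mul_le_mul_of_nonneg_right hE1 (by linarith)
      linarith
    have hβε : 1 - ε < β := by
      have h1 : b / (d * Real.log X) ≤ ε := by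
        rw [div_le_iff₀ hdl]
        have h2 : b / (d * ε) ≤ Real.log X := by linarith
        rw [div_le_iff₀ (by positivity)] at h2
        linarith
      linarith
    have hβ2 : 1 / 2 ≤ β := by
      have h1 : b / (d * Real.log X) ≤ 1 / 2 := by
        rw [div_le_iff₀ hdl]
        have h2 : 2 * b / d ≤ Real.log X := by linarith
        rw [div_le_iff₀ hd] at h2
        linarith
      linarith
    have hq0 : q₀' ≤ q := hnear q χ β hQd.2.2 hQd.1 hQd.2.1 hz hβε
    have hqK : q ≤ K := Nat.le_floor hq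
    have hβK : (1 - β) * Real.log K ≤ ε₂ := by
      have h1 : 1 - β ≤ b / (d * Real.log X) := by linarith
      calc (1 - β) * Real.log K ≤ (b / (d * Real.log X)) * (17 * (d * Real.log X)) := by
            apply mul_le_mul h1 hlK.2 hlK0.le (by positivity)
        _ = ε₂ := by
            rw [hb]
            field_simp
    have hK2' : K2 ≤ K := by
      have : (K2 : ℝ) ≤ K := by linarith
      exact_mod_cast this
    have h1 := hG1 K hK2' N h.rg (h.KB (by linarith) (hdB B₂ hB₂ hcB2)) q χ β hQd hq0 hqK hz hβK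
      ⌊Y⌋₊ hy.ry hy.YN
    have hlN0 : 0 ≤ Real.log N := by linarith
    have hC'b : |C''| ≤ E * Real.log X := by
      have := h.f6
      linarith
    refine hfin ((C₂ + 2) * E * Real.log X) (by positivity) ?_
      (fun Q => mW N Q q ((N : ℝ) ^ (β - 1))) ?_ ?_
    · have h5 : 0 ≤ C₁ * Real.sqrt (2 * C₃) * E * Real.log X := by positivity
      have h6 : (C₁ * Real.sqrt (2 * C₃) + C₂ + 2) * E * Real.log X =
        (C₂ + 2) * E * Real.log X + C₁ * Real.sqrt (2 * C₃) * E * Real.log X := by ring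
      rw [h6]
      linarith
    · refine h1.trans ?_
      have hYf : (0 : ℝ) ≤ (⌊Y⌋₊ : ℝ) / Real.log N := by positivity
      apply mul_le_mul_of_nonneg_right _ hYf
      apply mul_le_mul_of_nonneg_right _ hN0'.le
      have h2 : C₂ * Real.exp (-(c₂ * Real.log N / Real.log K)) * Real.log N ≤
          C₂ * E * Real.log X := by
        gcongr
      have h3 : E * Real.log N ≤ E * Real.log X := by gcongr
      have h4 : C'' ≤ E * Real.log X := (le_abs_self C'').trans hC'b
      calc _ ≤ C₂ * E * Real.log X + E * Real.log X + E * Real.log X := by linarith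
        _ = _ := by ring
    · intro Q hQ
      obtain ⟨k1, k2, k3⟩ := hQlog Q hQ
      have hq1 : (1 : ℝ) ≤ q := by exact_mod_cast hQd.2.2
      have h2 := exc_diff (X := X) (N := N) (A := Q * q) (β := β) (by linarith) hNX1 hNX2.le
        (one_le_mul_of_one_le_of_one_le k3 hq1) hβ2 hβ1.le
      have e1 : mW N Q q ((N : ℝ) ^ (β - 1)) - X * Real.log Q + W Q = (N - X) * Real.log Q +
          (X ^ (2 * β - 1) * max 0 (Real.log (X / (Q * q))) -
            ((N : ℝ) ^ (β - 1)) ^ 2 * N * max 0 (Real.log (N / (Q * q)))) := by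
        unfold mW
        rw [hWq Q, mul_comm (q : ℝ) (Q : ℝ)]
        ring
      rw [e1]
      refine (abs_add_le _ _).trans ?_
      rw [abs_mul, abs_of_nonneg k1]
      have h3 : |(N : ℝ) - X| ≤ 1 := by
        rw [abs_le]
        constructor <;> linarith
      have h4 : |(N : ℝ) - X| * Real.log Q ≤ 1 * Real.log X := by gcongr
      linarith

theorem AA_pr (h18 : S18) (h18g : S18g) (hE : ∀ c : ℝ, LHM.ZF c → LHM.ZE c) : SZ.AA := by
  obtain ⟨b, c, C, hb, hc, hC, h⟩ := AA17_pr h18 h18g hE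
  exact ⟨17, b, c, C, by norm_num, hb, hc, hC, h⟩

end Pool.Agent.SD
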