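import Pool.Agent.Lib_helper59.SZ.W
import Pool.Agent.Lib_helper3.FGP.P19

/-!
# The parameters `N = ⌊X⌋`, `K = ⌊X ^ (17 d)⌋`
-/

set_option autoImplicit false

namespace Pool.Agent.SD

open Finset Pool.Agent.Var35 Pool.Agent.Var73 Pool.Agent.PV Pool.Agent.FGP Filter

/-- the setting: `X` is large in terms of `d`, `E`, `M` -/
structure Gs (d E M X : ℝ) : Prop where
  d0 : 0 < d
  d1 : d ≤ 1 / 7000
  E0 : 0 < E
  E1 : E ≤ 1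
  x1 : (2 : ℝ) ^ 60 ≤ X
  xM : M ≤ X
  f2 : Real.log X ^ 100 ≤ X ^ (17 * d) - 1
  f3 : 65536 * X ^ (16 * d) ≤ X ^ (17 * d) - 1
  f4 : M ≤ X ^ (17 * d) - 1
  f5 : Real.log X ≤ E * X ^ (1 / 32 : ℝ)
  f6 : M ≤ E * Real.log X
  f7 : 8 * Real.log X ≤ E * X

theorem gs_ex {d E : ℝ} (hd : 0 < d) (hd1 : d ≤ 1 / 7000) (hE : 0 < E) (hE1 : E ≤ 1) (M : ℝ) :
    ∃ X₀ : ℝ, ∀ X : ℝ, X₀ ≤ X → Gs d E M X := by
  have e1 : ∀ᶠ X : ℝ in atTop, (2 : ℝ) ^ 60 ≤ X := eventually_ge_atTop _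
  have e2 : ∀ᶠ X : ℝ in atTop, M ≤ X := eventually_ge_atTop _
  have e3 : ∀ᶠ X : ℝ in atTop, Real.log X ≤ 1 * X ^ (16 * d / 100) := by
    have := (isLittleO_log_rpow_atTop (show (0 : ℝ) < 16 * d / 100 by positivity)).bound one_pos
    filter_upwards [this, eventually_ge_atTop (1 : ℝ)] with x hx h1
    rw [Real.norm_of_nonneg (Real.log_nonneg h1), Real.norm_of_nonneg (by positivity)] at hx
    exact hx
  have e4 : ∀ᶠ X : ℝ in atTop, 65537 ≤ X ^ d := (tendsto_rpow_atTop hd).eventually_ge_atTop _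
  have e5 : ∀ᶠ X : ℝ in atTop, M + 1 ≤ X ^ (17 * d) :=
    (tendsto_rpow_atTop (by positivity)).eventually_ge_atTop _
  have e6 : ∀ᶠ X : ℝ in atTop, Real.log X ≤ E * X ^ (1 / 32 : ℝ) := by
    have := (isLittleO_log_rpow_atTop (show (0 : ℝ) < 1 / 32 by norm_num)).bound hE
    filter_upwards [this, eventually_ge_atTop (1 : ℝ)] with x hx h1
    rw [Real.norm_of_nonneg (Real.log_nonneg h1), Real.norm_of_nonneg (by positivity)] at hx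
    exact hx
  have e7 : ∀ᶠ X : ℝ in atTop, M / E ≤ Real.log X := Real.tendsto_log_atTop.eventually_ge_atTop _
  have e8 : ∀ᶠ X : ℝ in atTop, Real.log X ≤ (E / 8) * X := by
    have := (Real.isLittleO_log_id_atTop).bound (show (0 : ℝ) < E / 8 by positivity)
    filter_upwards [this, eventually_ge_atTop (1 : ℝ)] with x hx h1
    rw [Real.norm_of_nonneg (Real.log_nonneg h1), id, Real.norm_of_nonneg (by linarith)] at hx
    exact hx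
  obtain ⟨X₀, hX₀⟩ := eventually_atTop.1
    (e1.and (e2.and (e3.and (e4.and (e5.and (e6.and (e7.and e8)))))))
  refine ⟨X₀, fun X hX => ?_⟩
  obtain ⟨a1, a2, a3, a4, a5, a6, a7, a8⟩ := hX₀ X hX
  have hX0 : 0 < X := by
    have : (0 : ℝ) < 2 ^ 60 := by positivity
    linarith
  have hX1 : 1 ≤ X := by
    have : (1 : ℝ) ≤ 2 ^ 60 := by norm_num
    linarith
  have h17 : X ^ (17 * d) = X ^ (16 * d) * X ^ d := by
    rw [← Real.rpow_add hX0]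
    ring_nf
  have h16 : 1 ≤ X ^ (16 * d) := Real.one_le_rpow hX1 (by positivity)
  refine ⟨hd, hd1, hE, hE1, a1, a2, ?_, ?_, by linarith, a6, ?_, by linarith⟩
  · have h1 : Real.log X ^ 100 ≤ (X ^ (16 * d / 100)) ^ 100 := by
      rw [one_mul] at a3
      exact pow_le_pow_left₀ (Real.log_nonneg hX1) a3 100
    have h2 : (X ^ (16 * d / 100)) ^ 100 = X ^ (16 * d) := by
      rw [← Real.rpow_natCast, ← Real.rpow_mul hX0.le]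
      congr 1
      push_cast
      ring
    rw [h2] at h1
    rw [h17]
    nlinarith
  · rw [h17]
    nlinarith
  · rw [div_le_iff₀ hE] at a7
    linarith

namespace Gs

variable {d E M X : ℝ} (h : Gs d E M X)
include h

theorem X0 : 0 < X := by
  have := h.x1
  have : (0 : ℝ) < 2 ^ 60 := by positivity
  linarith

theorem X1 : 1 ≤ X := by
  have := h.x1
  have : (1 : ℝ) ≤ 2 ^ 60 := by norm_num
  linarith

theorem X100 : 1000 ≤ X := by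
  have := h.x1
  have : (1000 : ℝ) ≤ 2 ^ 60 := by norm_num
  linarith

theorem N1 : (⌊X⌋₊ : ℝ) ≤ X := Nat.floor_le h.X0.le

theorem N2 : X < ⌊X⌋₊ + 1 := Nat.lt_floor_add_one X

theorem N3 : X / 2 ≤ ⌊X⌋₊ := by linarith [h.N2, h.X100]

theorem K1 : (⌊X ^ (17 * d)⌋₊ : ℝ) ≤ X ^ (17 * d) := Nat.floor_le (Real.rpow_nonneg h.X0.le _)

theorem K2 : X ^ (17 * d) - 1 ≤ (⌊X ^ (17 * d)⌋₊ : ℝ) := by
  have := Nat.lt_floor_add_one (X ^ (17 * d))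
  linarith

theorem logX : 40 ≤ Real.log X := by
  have h1 : Real.log ((2 : ℝ) ^ 60) ≤ Real.log X := Real.log_le_log (by positivity) h.x1
  rw [Real.log_pow] at h1
  have := Real.log_two_gt_d9
  push_cast at h1
  linarith

theorem K16 : X ^ (16 * d) * 65536 ≤ (⌊X ^ (17 * d)⌋₊ : ℝ) := by linarith [h.f3, h.K2]

theorem K10 : (65536 : ℝ) ≤ (⌊X ^ (17 * d)⌋₊ : ℝ) := by
  have h1 := h.K16
  have h2 : 1 ≤ X ^ (16 * d) := Real.one_le_rpow h.X1 (by have := h.d0; positivity)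
  linarith

/-- `16 d log X ≤ log K ≤ 17 d log X` -/
theorem logK : 16 * (d * Real.log X) ≤ Real.log ⌊X ^ (17 * d)⌋₊ ∧
    Real.log ⌊X ^ (17 * d)⌋₊ ≤ 17 * (d * Real.log X) := by
  have hK := h.K10
  constructor
  · have h1 : Real.log (X ^ (16 * d)) ≤ Real.log ⌊X ^ (17 * d)⌋₊ := by
      apply Real.log_le_log (Real.rpow_pos_of_pos h.X0 _)
      have := h.K16
      have h2 : 0 ≤ X ^ (16 * d) := Real.rpow_nonneg h.X0.le _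
      linarith
    rw [Real.log_rpow h.X0] at h1
    linarith
  · have h1 : Real.log ⌊X ^ (17 * d)⌋₊ ≤ Real.log (X ^ (17 * d)) :=
      Real.log_le_log (by linarith) h.K1
    rw [Real.log_rpow h.X0] at h1
    linarith

theorem logN : Real.log X / 2 ≤ Real.log (⌊X⌋₊ : ℝ) := by
  have h1 : Real.log X ≤ Real.log ((⌊X⌋₊ : ℝ) ^ 2) := by
    apply Real.log_le_log h.X0
    have := h.N3
    have := h.X100
    nlinarith
  rw [Real.log_pow] at h1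
  push_cast at h1
  linarith

theorem logN2 : Real.log (⌊X⌋₊ : ℝ) ≤ Real.log X :=
  Real.log_le_log (by linarith [h.N3, h.X100]) h.N1

theorem rg : Rg ⌊X ^ (17 * d)⌋₊ ⌊X⌋₊ := by
  have hX0 := h.X0
  refine ⟨?_, ?_, ?_⟩
  · have h1 : (10 : ℝ) ≤ (⌊X ^ (17 * d)⌋₊ : ℝ) := by linarith [h.K10]
    exact_mod_cast h1
  · apply Nat.le_floor
    push_cast
    have h1 : (⌊X ^ (17 * d)⌋₊ : ℝ) ^ 400 ≤ (X ^ (17 * d)) ^ 400 :=
      pow_le_pow_left₀ (Nat.cast_nonneg _) h.K1 400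
    refine h1.trans ?_
    rw [← Real.rpow_natCast, ← Real.rpow_mul hX0.le]
    calc X ^ (17 * d * ((400 : ℕ) : ℝ)) ≤ X ^ (1 : ℝ) := by
          apply Real.rpow_le_rpow_of_exponent_le h.X1
          push_cast
          linarith [h.d1]
      _ = X := Real.rpow_one X
  · have h1 : 0 ≤ Real.log (⌊X⌋₊ : ℝ) := Real.log_natCast_nonneg _
    calc Real.log (⌊X⌋₊ : ℝ) ^ 100 ≤ Real.log X ^ 100 := pow_le_pow_left₀ h1 h.logN2 100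
      _ ≤ _ := by linarith [h.f2, h.K2]

theorem KB {B : ℝ} (hB : 0 ≤ B) (hdB : 17 * d * B ≤ 1 / 2) : ((⌊X ^ (17 * d)⌋₊ : ℕ) : ℝ) ^ B ≤ ⌊X⌋₊ := by
  have hX0 := h.X0
  have h1 : ((⌊X ^ (17 * d)⌋₊ : ℕ) : ℝ) ^ B ≤ (X ^ (17 * d)) ^ B :=
    Real.rpow_le_rpow (Nat.cast_nonneg _) h.K1 hB
  have h2 : (X ^ (17 * d)) ^ B ≤ X ^ (1 / 2 : ℝ) := by
    rw [← Real.rpow_mul hX0.le]
    exact Real.rpow_le_rpow_of_exponent_le h.X1 hdB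
  have h3 : X ^ (1 / 2 : ℝ) ≤ X / 2 := by
    have h4 : X ^ (1 / 2 : ℝ) * X ^ (1 / 2 : ℝ) = X := by
      rw [← Real.rpow_add hX0]; norm_num
    have h5 : 2 ≤ X ^ (1 / 2 : ℝ) := by
      have h6 : (4 : ℝ) ^ (1 / 2 : ℝ) ≤ X ^ (1 / 2 : ℝ) :=
        Real.rpow_le_rpow (by norm_num) (by linarith [h.X100]) (by norm_num)
      have h7 : (4 : ℝ) ^ (1 / 2 : ℝ) = 2 := by
        have : (4 : ℝ) = 2 ^ (2 : ℝ) := by norm_num
        rw [this, ← Real.rpow_mul (by norm_num)]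
        norm_num
      linarith
    nlinarith
  linarith [h.N3]

end Gs

/-- the setting with `Y` -/
structure Gy (d E M X Y : ℝ) : Prop extends Gs d E M X where
  y1 : X ^ (1 - d) ≤ Y
  y2 : Y ≤ X / 8

namespace Gy

variable {d E M X Y : ℝ} (h : Gy d E M X Y)
include h

theorem YX : Y ≤ X := by
  have := h.y2
  have := h.toGs.X0
  linarith

theorem Y1 : X ^ (59 / 60 : ℝ) ≤ Y := by
  refine le_trans (Real.rpow_le_rpow_of_exponent_le h.toGs.X1 ?_) h.y1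
  linarith [h.toGs.d1]

theorem Y0 : 0 < Y := lt_of_lt_of_le (Real.rpow_pos_of_pos h.toGs.X0 _) h.Y1

theorem Y10 : 100 ≤ Y := by
  refine le_trans ?_ h.Y1
  have h1 : (1000 : ℝ) ^ (59 / 60 : ℝ) ≤ X ^ (59 / 60 : ℝ) :=
    Real.rpow_le_rpow (by norm_num) h.toGs.X100 (by norm_num)
  refine le_trans ?_ h1
  have h2 : (1000 : ℝ) ^ (2 / 3 : ℝ) ≤ (1000 : ℝ) ^ (59 / 60 : ℝ) :=
    Real.rpow_le_rpow_of_exponent_le (by norm_num) (by norm_num)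
  refine le_trans (le_of_eq ?_) h2
  have h3 : (1000 : ℝ) = 10 ^ (3 : ℝ) := by norm_num
  rw [h3, ← Real.rpow_mul (by norm_num)]
  norm_num

theorem Yf1 : (⌊Y⌋₊ : ℝ) ≤ Y := Nat.floor_le h.Y0.le

theorem Yf2 : Y / 2 ≤ ⌊Y⌋₊ := by
  have := Nat.lt_floor_add_one Y
  linarith [h.Y10]

theorem ry : RY ⌊X ^ (17 * d)⌋₊ ⌊X⌋₊ ⌊Y⌋₊ := by
  have hX0 := h.toGs.X0
  refine ⟨?_, Nat.floor_le_floor h.YX, ?_⟩
  · apply Nat.le_floor
    have := h.Y10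
    push_cast
    linarith
  · have hXd : 0 < X ^ d := Real.rpow_pos_of_pos hX0 d
    have h1 : (⌊X⌋₊ : ℝ) ≤ 2 * X ^ d * ⌊Y⌋₊ := by
      have h2 : X ≤ X ^ d * Y := by
        have h3 : X = X ^ d * X ^ (1 - d) := by
          rw [← Real.rpow_add hX0]
          ring_nf
          exact (Real.rpow_one X).symm
        calc X = X ^ d * X ^ (1 - d) := h3
          _ ≤ _ := mul_le_mul_of_nonneg_left h.y1 hXd.le
      have h4 := h.Yf2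
      calc (⌊X⌋₊ : ℝ) ≤ X := h.toGs.N1
        _ ≤ X ^ d * Y := h2
        _ ≤ X ^ d * (2 * ⌊Y⌋₊) := by
            have : Y ≤ 2 * ⌊Y⌋₊ := by linarith
            gcongr
        _ = _ := by ring
    have h2 : (⌊X⌋₊ : ℝ) ^ 16 ≤ (2 * X ^ d * ⌊Y⌋₊) ^ 16 := by gcongr
    have h3 : (X ^ d) ^ 16 = X ^ (16 * d) := by
      rw [← Real.rpow_natCast, ← Real.rpow_mul hX0.le]
      congr 1
      push_cast
      ring
    have h4 : (⌊X⌋₊ : ℝ) ^ 16 ≤ (⌊Y⌋₊ : ℝ) ^ 16 * (⌊X ^ (17 * d)⌋₊ : ℝ) := by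
      calc (⌊X⌋₊ : ℝ) ^ 16 ≤ (2 * X ^ d * ⌊Y⌋₊) ^ 16 := h2
        _ = (⌊Y⌋₊ : ℝ) ^ 16 * ((X ^ d) ^ 16 * 65536) := by ring
        _ = (⌊Y⌋₊ : ℝ) ^ 16 * (X ^ (16 * d) * 65536) := by rw [h3]
        _ ≤ _ := by
            have := h.toGs.K16
            gcongr
    exact_mod_cast h4

theorem YN : 4 * ⌊Y⌋₊ ≤ ⌊X⌋₊ := by
  have h1 := h.Yf1
  have h2 := h.y2
  have h3 := h.toGs.N3
  have h4 : (4 : ℝ) * ⌊Y⌋₊ ≤ ⌊X⌋₊ := by linarith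
  exact_mod_cast h4

theorem cond : (⌊X⌋₊ : ℝ) ^ (1 / 2 + 1 / 4 : ℝ) ≤ (⌊Y⌋₊ : ℝ) := by
  have hX0 := h.toGs.X0
  have h1 : (⌊X⌋₊ : ℝ) ^ (1 / 2 + 1 / 4 : ℝ) ≤ X ^ (3 / 4 : ℝ) := by
    have : (1 / 2 + 1 / 4 : ℝ) = 3 / 4 := by norm_num
    rw [this]
    exact Real.rpow_le_rpow (Nat.cast_nonneg _) h.toGs.N1 (by norm_num)
  have h2 : 2 * X ^ (3 / 4 : ℝ) ≤ X ^ (59 / 60 : ℝ) := by
    have h3 : X ^ (59 / 60 : ℝ) = X ^ (3 / 4 : ℝ) * X ^ (7 / 30 : ℝ) := by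
      rw [← Real.rpow_add hX0]; norm_num
    have h4 : 2 ≤ X ^ (7 / 30 : ℝ) := by
      have h6 : ((2 : ℝ) ^ 60) ^ (7 / 30 : ℝ) ≤ X ^ (7 / 30 : ℝ) :=
        Real.rpow_le_rpow (by norm_num) h.toGs.x1 (by norm_num)
      have h7 : ((2 : ℝ) ^ 60) ^ (7 / 30 : ℝ) = 2 ^ (14 : ℝ) := by
        rw [← Real.rpow_natCast, ← Real.rpow_mul (by norm_num)]
        norm_num
      rw [h7] at h6
      have h8 : (2 : ℝ) ≤ 2 ^ (14 : ℝ) := by norm_num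
      linarith
    have h5 : 0 < X ^ (3 / 4 : ℝ) := Real.rpow_pos_of_pos hX0 _
    rw [h3]
    nlinarith
  linarith [h.Y1, h.Yf2]

theorem logY : 1 ≤ Real.log Y := by
  rw [Real.le_log_iff_exp_le h.Y0]
  have := Real.exp_one_lt_d9
  linarith [h.Y10]

theorem logYX : Real.log Y ≤ Real.log X := Real.log_le_log h.Y0 h.YX

theorem Qf {Q : ℕ} (hQ : Q ∈ QR Y) : Q.Prime ∧ Y < Q ∧ (Q : ℝ) ≤ 2 * Y := by
  unfold QR at hQ
  rw [mem_filter, mem_Icc] at hQ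
  obtain ⟨⟨hQ1, hQ2⟩, hQp, hYQ⟩ := hQ
  exact ⟨hQp, hYQ, le_trans (by exact_mod_cast hQ2) (Nat.floor_le (by linarith [h.Y0]))⟩

theorem sub : QR Y ⊆ QQ ⌊Y⌋₊ := by
  intro Q hQ
  obtain ⟨hQp, hYQ, hQ2⟩ := h.Qf hQ
  unfold QQ
  rw [mem_filter, mem_Ioc]
  have h1 := h.Yf1
  have h2 := h.Yf2
  refine ⟨⟨?_, ?_⟩, hQp⟩
  · have : (⌊Y⌋₊ : ℝ) < Q := by linarith
    exact_mod_cast this
  · have : (Q : ℝ) ≤ 4 * ⌊Y⌋₊ := by linarith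
    exact_mod_cast this

theorem yN : (⌊Y⌋₊ : ℝ) / Real.log (⌊X⌋₊ : ℝ) ≤ 2 * (Y / Real.log Y) := by
  have h1 := h.toGs.logN
  have h2 := h.logY
  have h3 := h.Yf1
  have h4 := h.Y0
  have h5 := h.logYX
  have h6 : Real.log Y / 2 ≤ Real.log (⌊X⌋₊ : ℝ) := by linarith
  rw [← mul_div_assoc, div_le_div_iff₀ (by linarith) (by linarith)]
  nlinarith [mul_le_mul_of_nonneg_left h6 h4.le, mul_le_mul_of_nonneg_right h3 (by linarith : 0 ≤ Real.log Y)]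

/-- from `SQ N Q` to `V X Q`, and the summation over `Q` -/
theorem total {m : ℕ → ℝ} {W : ℕ → ℝ} {T e : ℝ} (hT : 0 ≤ T) (he : 0 ≤ e)
    (h1 : ∑ Q ∈ QQ ⌊Y⌋₊, |VV ⌊X⌋₊ Q - SQ ⌊X⌋₊ Q| ≤ ⌊Y⌋₊ * (⌊X⌋₊ : ℝ) ^ (1 - 1 / 4 / 8 : ℝ))
    (h2 : ∑ Q ∈ QQ ⌊Y⌋₊, |SQ ⌊X⌋₊ Q - m Q| ≤ T * ⌊X⌋₊ * (⌊Y⌋₊ / Real.log ⌊X⌋₊))
    (h3 : ∀ Q ∈ QR Y, |m Q - X * Real.log Q + W Q| ≤ e)
    (h4 : ((QR Y).card : ℝ) ≤ 3 * (Y / Real.log Y)) :
    ∑ Q ∈ QR Y, |SZ.V X Q - X * Real.log Q + W Q| ≤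
      (E * X + 2 * T * X + 3 * e) * (Y / Real.log Y) := by
  have hX0 := h.toGs.X0
  have hY0 := h.Y0
  have hlY := h.logY
  have hZ : 0 < Y / Real.log Y := by positivity
  have s0 : ∀ Q ∈ QR Y, |SZ.V X Q - X * Real.log Q + W Q| ≤
      |VV ⌊X⌋₊ Q - SQ ⌊X⌋₊ Q| + |SQ ⌊X⌋₊ Q - m Q| + e := by
    intro Q hQ
    obtain ⟨hQp, -, -⟩ := h.Qf hQ
    have e1 : SZ.V X Q = VV ⌊X⌋₊ Q := p19_id X Q hQp.one_lt.le
    rw [e1]
    have e2 : VV ⌊X⌋₊ Q - X * Real.log Q + W Q = (VV ⌊X⌋₊ Q - SQ ⌊X⌋₊ Q) +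
        (SQ ⌊X⌋₊ Q - m Q) + (m Q - X * Real.log Q + W Q) := by ring
    rw [e2]
    exact (abs_add_le _ _).trans (add_le_add (abs_add_le _ _) (h3 Q hQ))
  have s1 : ∑ Q ∈ QR Y, |SZ.V X Q - X * Real.log Q + W Q| ≤
      ∑ Q ∈ QQ ⌊Y⌋₊, |VV ⌊X⌋₊ Q - SQ ⌊X⌋₊ Q| + ∑ Q ∈ QQ ⌊Y⌋₊, |SQ ⌊X⌋₊ Q - m Q| +
      ((QR Y).card : ℝ) * e := by
    refine (sum_le_sum s0).trans ?_
    rw [sum_add_distrib, sum_const, nsmul_eq_mul, sum_add_distrib]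
    have t1 := sum_le_sum_of_subset_of_nonneg (f := fun Q => |VV ⌊X⌋₊ Q - SQ ⌊X⌋₊ Q|) h.sub
      (fun Q _ _ => abs_nonneg _)
    have t2 := sum_le_sum_of_subset_of_nonneg (f := fun Q => |SQ ⌊X⌋₊ Q - m Q|) h.sub
      (fun Q _ _ => abs_nonneg _)
    linarith
  have b1 : (⌊Y⌋₊ : ℝ) * (⌊X⌋₊ : ℝ) ^ (1 - 1 / 4 / 8 : ℝ) ≤ E * X * (Y / Real.log Y) := by
    have g1 : (⌊X⌋₊ : ℝ) ^ (1 - 1 / 4 / 8 : ℝ) ≤ X ^ (31 / 32 : ℝ) := by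
      have : (1 - 1 / 4 / 8 : ℝ) = 31 / 32 := by norm_num
      rw [this]
      exact Real.rpow_le_rpow (Nat.cast_nonneg _) h.toGs.N1 (by norm_num)
    have g2 : X ^ (31 / 32 : ℝ) * Real.log Y ≤ E * X := by
      calc X ^ (31 / 32 : ℝ) * Real.log Y ≤ X ^ (31 / 32 : ℝ) * (E * X ^ (1 / 32 : ℝ)) := by
            have := Real.rpow_pos_of_pos hX0 (31 / 32)
            have := h.logYX.trans h.toGs.f5
            gcongr
        _ = E * (X ^ (31 / 32 : ℝ) * X ^ (1 / 32 : ℝ)) := by ring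
        _ = _ := by rw [← Real.rpow_add hX0]; norm_num
    have g3 : X ^ (31 / 32 : ℝ) ≤ E * X / Real.log Y := by
      rw [le_div_iff₀ (by linarith)]
      exact g2
    calc (⌊Y⌋₊ : ℝ) * (⌊X⌋₊ : ℝ) ^ (1 - 1 / 4 / 8 : ℝ) ≤ Y * (E * X / Real.log Y) := by
          have := h.Yf1
          have := g1.trans g3
          gcongr
      _ = _ := by ring
  have b2 : T * ⌊X⌋₊ * (⌊Y⌋₊ / Real.log ⌊X⌋₊) ≤ 2 * T * X * (Y / Real.log Y) := by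
    have g4 := h.yN
    have g6 := h.toGs.N1
    have g7 : 0 ≤ (⌊Y⌋₊ : ℝ) / Real.log ⌊X⌋₊ := by
      have := Real.log_natCast_nonneg ⌊X⌋₊
      positivity
    calc T * ⌊X⌋₊ * (⌊Y⌋₊ / Real.log ⌊X⌋₊) ≤ T * X * (2 * (Y / Real.log Y)) := by gcongr
      _ = _ := by ring
  have b3 : ((QR Y).card : ℝ) * e ≤ 3 * e * (Y / Real.log Y) := by
    calc ((QR Y).card : ℝ) * e ≤ (3 * (Y / Real.log Y)) * e := by gcongr
      _ = _ := by ring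
  calc _ ≤ E * X * (Y / Real.log Y) + 2 * T * X * (Y / Real.log Y) + 3 * e * (Y / Real.log Y) :=
        s1.trans (add_le_add (add_le_add (h1.trans b1) (h2.trans b2)) b3)
    _ = _ := by ring

end Gy

end Pool.Agent.SD
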