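import Pool.Agent.Lib_helper59.SZ.Fin
import Pool.Agent.Lib_helper26.SD.Cnt
import Pool.Agent.Lib_helper26.SD.Geo

/-!
# The dichotomy with one constant
-/

set_option autoImplicit false

namespace Pool.Agent.SD

open Finset Pool.Agent.FGP Pool.Agent.SZ Filter

/-- the dichotomy (`SZ.dichotomy`) with a constant `c` below a given bound, and `δ₀ ≤ 1 / 2` -/
theorem dich (h2 : F2) (h3 : F3) (h4 : F4) (h5 : F5) (cA : ℝ) (hcA : 0 < cA) :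
    ∃ c δ₀ : ℝ, 0 < c ∧ c ≤ cA ∧ 0 < δ₀ ∧ δ₀ ≤ cA ∧ δ₀ < 1 ∧
    (∀ δ : ℝ, 0 < δ → δ ≤ δ₀ → Real.exp (-(c / δ)) ≤ δ / 100) ∧
    ((∃ c₀ : ℝ, 0 < c₀ ∧ NS c₀) ↔ ∃ k : ℝ, 0 < k ∧ BBe k) ∧
    ((∃ c₀ : ℝ, 0 < c₀ ∧ NS c₀) ↔ ∃ δ : ℝ, 0 < δ ∧ δ ≤ δ₀ ∧ CC c δ) ∧
    ((¬ ∃ c₀ : ℝ, 0 < c₀ ∧ NS c₀) → ∀ δ : ℝ, 0 < δ → δ ≤ δ₀ → DD c δ) := by
  obtain ⟨c', δ', hc', hδ', hδ1, hD⟩ := h4
  set c : ℝ := min (c' / 3) cA with hc
  have hc0 : 0 < c := lt_min (by positivity) hcA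
  have hc3 : c ≤ c' / 3 := min_le_left _ _
  have h2c : 2 * c < c' := by linarith
  set δ₀ : ℝ := min (min δ' cA) (min (1 / 2) (c ^ 2 / 200)) with hδ₀
  have hδ₀0 : 0 < δ₀ := lt_min (lt_min hδ' hcA) (lt_min (by norm_num) (by positivity))
  have hδ₀1 : δ₀ ≤ δ' := (min_le_left _ _).trans (min_le_left _ _)
  have hδ₀2 : δ₀ ≤ cA := (min_le_left _ _).trans (min_le_right _ _)
  have hδ₀3 : δ₀ ≤ 1 / 2 := (min_le_right _ _).trans (min_le_left _ _)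
  have hδ₀4 : δ₀ ≤ c ^ 2 / 200 := (min_le_right _ _).trans (min_le_right _ _)
  have key : ∀ δ : ℝ, 0 < δ → δ ≤ δ₀ → CC c δ → ∃ c₀ : ℝ, 0 < c₀ ∧ NS c₀ := by
    intro δ hδ hδδ hC
    by_contra hn
    exact h5 c c' δ hc0 h2c hδ (by linarith) (hD hn δ hδ (hδδ.trans hδ₀1)) hC
  have key2 : ∀ k : ℝ, 0 < k → BB k → ∃ δ : ℝ, 0 < δ ∧ δ ≤ δ₀ ∧ CC c δ := by
    intro k hk hB
    obtain ⟨δ₁, hδ₁, hC⟩ := h3 c k hc0 hk hB
    exact ⟨min δ₀ δ₁, lt_min hδ₀0 hδ₁, min_le_left _ _, hC _ (lt_min hδ₀0 hδ₁) (min_le_right _ _)⟩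
  refine ⟨c, δ₀, hc0, min_le_right _ _, hδ₀0, hδ₀2, by linarith, ?_, ⟨?_, ?_⟩, ⟨?_, ?_⟩, ?_⟩
  · intro δ hδ hδδ
    have h6 : δ ≤ c ^ 2 / 200 := hδδ.trans hδ₀4
    have hx : 0 < c / δ := by positivity
    have h7 : (c / δ) ^ 2 / 2 ≤ Real.exp (c / δ) := by
      have := Real.quadratic_le_exp_of_nonneg hx.le
      linarith
    have h8 : 100 / δ ≤ Real.exp (c / δ) := by
      refine le_trans ?_ h7
      rw [div_pow, div_div, div_le_div_iff₀ hδ (by positivity)]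
      nlinarith
    rw [Real.exp_neg, inv_eq_one_div, div_le_div_iff₀ (Real.exp_pos _) (by norm_num)]
    rw [div_le_iff₀ hδ] at h8
    linarith
  · rintro ⟨c₀, hc₀, hN⟩
    obtain ⟨k, hk, hB⟩ := h2 c₀ hc₀ hN
    exact fin_bb hk hB
  · rintro ⟨k, hk, hB⟩
    obtain ⟨k', hk', hB'⟩ := fin_bbe hk hB
    obtain ⟨δ, hδ, hδδ, hC⟩ := key2 k' hk' hB'
    exact key δ hδ hδδ hC
  · rintro ⟨c₀, hc₀, hN⟩
    obtain ⟨k, hk, hB⟩ := h2 c₀ hc₀ hN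
    exact key2 k hk hB
  · rintro ⟨δ, hδ, hδδ, hC⟩
    exact key δ hδ hδδ hC
  · intro hn δ hδ hδδ
    exact fin_dd (by linarith) hδ (hD hn δ hδ (hδδ.trans hδ₀1))

/-- `AA` in terms of the number of the primes in `(Y, 2Y]`, for every small constant `c` -/
theorem aac (h : AA) : ∃ a b cA C : ℝ, 0 < a ∧ 0 < b ∧ 0 < cA ∧ 0 < C ∧ ∀ c : ℝ, 0 < c → c ≤ cA →
    ∀ δ : ℝ, 0 < δ → δ ≤ cA → ∀ᶠ X : ℝ in atTop, ∀ Y : ℝ, X ^ (1 - δ) ≤ Y → Y ≤ X / C →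
    ((∀ (q : ℕ) (χ : DirichletCharacter ℂ q) (β : ℝ), ¬ IsExc a b δ X q χ β) →
      ∑ Q ∈ QR Y, |V X Q - X * Real.log Q| ≤
        C * Real.exp (-(c / δ)) * (X * Real.log X) * (QR Y).card) ∧
    (∀ (q : ℕ) (χ : DirichletCharacter ℂ q) (β : ℝ), IsExc a b δ X q χ β →
      ∑ Q ∈ QR Y, |V X Q - (X * Real.log Q - X ^ (2 * β - 1) * max 0 (Real.log (X / (q * Q))))| ≤
        C * Real.exp (-(c / δ)) * (X * Real.log X) * (QR Y).card) := by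
  obtain ⟨a, b, c₁, C, ha, hb, hc₁, hC, hAA⟩ := h
  obtain ⟨Y₀, hY₀, hcnt⟩ := cnt
  refine ⟨a, b, min c₁ (1 / 2), max C (2 * C), ha, hb, lt_min hc₁ (by norm_num),
    lt_max_of_lt_left hC, fun c hc hcc δ hδ hδc => ?_⟩
  have hδ1 : δ ≤ c₁ := hδc.trans (min_le_left _ _)
  have hδ2 : δ ≤ 1 / 2 := hδc.trans (min_le_right _ _)
  obtain ⟨X₀, hX₀⟩ := hAA δ hδ hδ1
  filter_upwards [eventually_ge_atTop X₀, eventually_ge_atTop (1 : ℝ),
    (tendsto_rpow_atTop (show (0 : ℝ) < 1 / 2 by norm_num)).eventually_ge_atTop Y₀]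
    with X h1 h2 h3
  intro Y hY1 hY2
  have hX0 : 0 < X := by linarith
  have hYY : Y₀ ≤ Y := by
    refine h3.trans (le_trans ?_ hY1)
    exact Real.rpow_le_rpow_of_exponent_le h2 (by linarith)
  obtain ⟨k1, k2⟩ := hcnt Y hYY
  have hYC : Y ≤ X / C := by
    refine hY2.trans ?_
    exact div_le_div_of_nonneg_left hX0.le hC (le_max_left _ _)
  have hlX : 0 ≤ Real.log X := Real.log_nonneg h2
  have hE : Real.exp (-(c₁ / δ)) ≤ Real.exp (-(c / δ)) := by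
    apply Real.exp_le_exp.2
    apply neg_le_neg
    exact div_le_div_of_nonneg_right (hcc.trans (min_le_left _ _)) hδ.le
  have hlY : 0 ≤ Real.log Y := Real.log_nonneg (by linarith)
  have fin : C * Real.exp (-(c₁ / δ)) * (X * Real.log X) * (Y / Real.log Y) ≤
      max C (2 * C) * Real.exp (-(c / δ)) * (X * Real.log X) * (QR Y).card := by
    have h4 : Y / Real.log Y ≤ 2 * ((QR Y).card : ℝ) := by linarith
    have h5 : 0 ≤ X * Real.log X := by positivity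
    calc C * Real.exp (-(c₁ / δ)) * (X * Real.log X) * (Y / Real.log Y) ≤
        C * Real.exp (-(c / δ)) * (X * Real.log X) * (2 * ((QR Y).card : ℝ)) := by
          have hY0 : 0 ≤ Y := by linarith
          exact mul_le_mul (mul_le_mul_of_nonneg_right (mul_le_mul_of_nonneg_left hE hC.le) h5) h4
            (div_nonneg hY0 hlY) (mul_nonneg (by positivity) h5)
      _ = (2 * C) * (Real.exp (-(c / δ)) * (X * Real.log X) * ((QR Y).card : ℝ)) := by ring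
      _ ≤ max C (2 * C) * (Real.exp (-(c / δ)) * (X * Real.log X) * ((QR Y).card : ℝ)) := by
          apply mul_le_mul_of_nonneg_right (le_max_right C (2 * C))
          exact mul_nonneg (mul_nonneg (Real.exp_pos _).le h5) (Nat.cast_nonneg _)
      _ = _ := by ring
  constructor
  · intro hno
    have h6 := hX₀ X h1 (fun _ => 0) (Or.inl ⟨fun _ => rfl, hno⟩) Y hY1 hYC
    refine le_trans (le_of_eq ?_) (h6.trans fin)
    refine sum_congr rfl fun Q _ => ?_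
    rw [add_zero]
  · intro q χ β hexc
    have h6 := hX₀ X h1 (fun Q => X ^ (2 * β - 1) * max 0 (Real.log (X / (q * Q))))
      (Or.inr ⟨q, χ, β, hexc, fun _ => rfl⟩) Y hY1 hYC
    refine le_trans (le_of_eq ?_) (h6.trans fin)
    refine sum_congr rfl fun Q _ => ?_
    congr 1
    ring

end Pool.Agent.SD
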