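import Pool.Agent.Lib_helper59.SZ.W
import Pool.Agent.Lib_helper26.SD.Page

/-!
# SZ, block Z1: at most one bad zero, with multiplicity
-/

set_option autoImplicit false

namespace Pool.Agent.SZ

open Finset

theorem Z1_pr : Z1 := by
  obtain ⟨c₀, hc₀, h⟩ := SD.page
  obtain ⟨hZF, hD⟩ := h c₀ hc₀ le_rfl
  refine ⟨c₀, hZF, fun D hD2 => ?_⟩
  rcases hD D hD2 with hn | ⟨q₁, χ₁, β₁, hE⟩
  · refine le_trans (le_of_eq ?_) zero_le_one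
    refine Finset.sum_eq_zero fun q hq => Finset.sum_eq_zero fun χ hχ => ?_
    rw [hn q hq χ hχ, Finset.sum_empty]
  · have h1 : ∑ q ∈ Icc 1 D, ∑ χ ∈ GA.Prm q, ∑ ρ ∈ LHM.BZ c₀ D χ, GA.mlt (GA.LF χ) ρ =
        ∑ χ ∈ GA.Prm q₁, ∑ ρ ∈ LHM.BZ c₀ D χ, GA.mlt (GA.LF χ) ρ := by
      refine Finset.sum_eq_single q₁ (fun q hq hne => ?_) (fun h => absurd hE.hq h)
      refine Finset.sum_eq_zero fun χ hχ => ?_
      rw [hE.hoth q hq χ hχ (fun h => hne (congrArg Sigma.fst h)), Finset.sum_empty]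
    have h2 : ∑ χ ∈ GA.Prm q₁, ∑ ρ ∈ LHM.BZ c₀ D χ, GA.mlt (GA.LF χ) ρ =
        ∑ ρ ∈ LHM.BZ c₀ D χ₁, GA.mlt (GA.LF χ₁) ρ := by
      refine Finset.sum_eq_single χ₁ (fun χ hχ hne => ?_) (fun h => absurd hE.hχ h)
      rw [hE.hoth q₁ hE.hq χ hχ (fun h => hne (by simpa using h)), Finset.sum_empty]
    rw [h1, h2, hE.hB, Finset.sum_singleton, hE.hm]

end Pool.Agent.SZ
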